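import Pool.Agent.Q152.EM.Walk

/-!
# Groups of functions with finitely many values
-/

set_option autoImplicit false
set_option linter.unusedSectionVars false
set_option linter.style.haveILetI false

namespace Pool.Agent.Q152.EM

open Pool.Agent.Y462.SS Pool.Agent.Q152.WP Pool.Agent.Q105.FJ

variable {C : ∀ (G : Type) [Group G], Prop}

variable {X P : Type} [Group P] {W Q : Type} [Group W] [Group Q] (j : W →* Wr X P) (f : W →* Q)
  (hp : ∀ w, f w = 1 → (j w).p = 1)

/-- the elements of the kernel whose function factors through `c` -/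
def fac (hp : ∀ w, f w = 1 → (j w).p = 1) {k : Type} (c : X → k) : Subgroup W where
  carrier := {w | f w = 1 ∧ ∃ u : k → P, (j w).s = u ∘ c}
  one_mem' := ⟨map_one f, 1, by rw [map_one]; rfl⟩
  mul_mem' := by
    rintro a b ⟨ha, u, hu⟩ ⟨hb, v, hv⟩
    refine ⟨by rw [map_mul, ha, hb, one_mul], u * v, ?_⟩
    funext x
    rw [map_mul]
    change (j a).s ((j b).p x) * (j b).s x = _
    rw [hp b hb, hu, hv]
    rfl
  inv_mem' := by
    rintro a ⟨ha, u, hu⟩
    refine ⟨by rw [map_inv, ha, inv_one], u⁻¹, ?_⟩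
    funext x
    rw [map_inv]
    change ((j a).s ((j a).p.symm x))⁻¹ = _
    rw [hp a ha, hu]
    rfl

/-- the pairs of subgroups -/
def prc (g : W) {k : Type} (c : X → k) : Pair g where
  A := fac j f hp c ⊓ (fac j f hp c).comap (MulAut.conj g).toMonoidHom
  F := fac j f hp c
  hA := fun _ h => h.1
  hB := fun _ h => h.2

/-- the family -/
def Fam (g : W) : Set (Pair g) :=
  {p | ∃ (k : Type) (_ : Finite k) (c : X → k), Function.Surjective c ∧
    (∃ s₀ : k → P, (j g).s = s₀ ∘ c) ∧ p = prc j f hp g c}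

theorem fac_mono {k k' : Type} (c : X → k) (c' : X → k') (φ : k' → k) (h : c = φ ∘ c') :
    fac j f hp c ≤ fac j f hp c' := by
  rintro w ⟨h1, u, hu⟩
  exact ⟨h1, u ∘ φ, by rw [hu, h]; rfl⟩

theorem prc_mono (g : W) {k k' : Type} (c : X → k) (c' : X → k') (φ : k' → k) (h : c = φ ∘ c') :
    prc j f hp g c ≤ prc j f hp g c' := by
  refine ⟨?_, ?_⟩
  · rintro w ⟨h1, h2⟩
    exact ⟨fac_mono j f hp c c' φ h h1, fac_mono j f hp c c' φ h h2⟩
  · intro w hw
    exact fac_mono j f hp c c' φ h hw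

/-- a map with finitely many values factors through a surjection to a finite set -/
theorem exists_col {T : Type} (φ : X → T) (hφ : (Set.range φ).Finite) :
    ∃ (k : Type) (_ : Finite k) (c : X → k) (ψ : k → T), Function.Surjective c ∧ φ = ψ ∘ c :=
  ⟨Set.range φ, hφ, Set.rangeFactorization φ, Subtype.val, Set.rangeFactorization_surjective, rfl⟩

theorem range_prod {T T' : Type} (φ : X → T) (φ' : X → T') (h : (Set.range φ).Finite)
    (h' : (Set.range φ').Finite) : (Set.range (fun x => (φ x, φ' x))).Finite := by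
  refine (h.prod h').subset ?_
  rintro _ ⟨x, rfl⟩
  exact ⟨⟨x, rfl⟩, ⟨x, rfl⟩⟩

variable (hfin : ∀ w, (Set.range (j w).s).Finite)

include hfin in
theorem fam_dir (g : W) : Dir f.ker (Fam j f hp g) := by
  refine ⟨?_, ?_, ?_, ?_⟩
  · obtain ⟨k, hk, c, ψ, hc, h⟩ := exists_col (j g).s (hfin g)
    exact ⟨_, k, hk, c, hc, ⟨ψ, h⟩, rfl⟩
  · rintro _ ⟨k, hk, c, hc, ⟨s₀, hs⟩, rfl⟩ w ⟨hw, _⟩
    exact hw
  · rintro _ ⟨k, hk, c, hc, ⟨s₀, hs⟩, rfl⟩ _ ⟨k', hk', c', hc', _, rfl⟩
    obtain ⟨l, hl, e, ψ, he, h⟩ := exists_col (fun x => (c x, c' x))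
      (range_prod c c' (Set.toFinite _) (Set.toFinite _))
    refine ⟨_, ⟨l, hl, e, he, ⟨s₀ ∘ (fun y => (ψ y).1), ?_⟩, rfl⟩,
      prc_mono j f hp g c e (fun y => (ψ y).1) ?_, prc_mono j f hp g c' e (fun y => (ψ y).2) ?_⟩
    · rw [hs]
      funext x
      exact congrArg s₀ (congrArg Prod.fst (congrFun h x))
    · funext x
      exact congrArg Prod.fst (congrFun h x)
    · funext x
      exact congrArg Prod.snd (congrFun h x)
  · intro w hw
    obtain ⟨k, hk, c, ψ, hc, h⟩ := exists_col
      (fun x => ((j g).s x, ((j w).s x, (j (g * w * g⁻¹)).s x)))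
      (range_prod _ _ (hfin g) (range_prod _ _ (hfin w) (hfin _)))
    refine ⟨_, ⟨k, hk, c, hc, ⟨fun y => (ψ y).1, ?_⟩, rfl⟩, ⟨hw, fun y => (ψ y).2.1, ?_⟩,
      ⟨?_, fun y => (ψ y).2.2, ?_⟩⟩
    · funext x
      exact congrArg (fun z => z.1) (congrFun h x)
    · funext x
      exact congrArg (fun z => z.2.1) (congrFun h x)
    · change f (g * w * g⁻¹) = 1
      rw [map_mul, map_mul, MonoidHom.mem_ker.1 hw, mul_one, map_inv, mul_inv_cancel]
    · funext x
      exact congrArg (fun z => z.2.2) (congrFun h x)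

variable (hinj : ∀ w, f w = 1 → j w = 1 → w = 1)

/-- the values on the classes -/
noncomputable def val {k : Type} {c : X → k} (hc : Function.Surjective c) :
    fac j f hp c →* (k → P) where
  toFun w i := (j w.1).s (hc i).choose
  map_one' := by
    funext i
    change (j 1).s _ = 1
    rw [map_one]
    rfl
  map_mul' a b := by
    funext i
    change (j (a.1 * b.1)).s _ = (j a.1).s _ * (j b.1).s _
    rw [map_mul]
    change (j a.1).s ((j b.1).p _) * (j b.1).s _ = _
    rw [hp b.1 b.2.1]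
    rfl

theorem val_spec {k : Type} {c : X → k} (hc : Function.Surjective c) (w : fac j f hp c) :
    (j w.1).s = val j f hp hc w ∘ c := by
  obtain ⟨u, hu⟩ := w.2.2
  funext x
  change _ = (j w.1).s (hc (c x)).choose
  rw [hu]
  change u (c x) = u (c (hc (c x)).choose)
  rw [(hc (c x)).choose_spec]

include hinj in
theorem val_injective {k : Type} {c : X → k} (hc : Function.Surjective c) :
    Function.Injective (val j f hp hc) := by
  rw [injective_iff_map_eq_one]
  intro w hw
  apply Subtype.ext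
  refine hinj w.1 w.2.1 (Wr.ext ?_ (hp w.1 w.2.1))
  rw [val_spec j f hp hc w, hw]
  rfl

/-- the values of finitely many elements of the kernel -/
def cS (S : Finset f.ker) : X → (S → P) := fun x w => (j w.1.1).s x

include hfin in
theorem cS_finite (S : Finset f.ker) : (Set.range (cS j f S)).Finite := by
  refine (Set.Finite.pi' (fun w : S => hfin w.1.1)).subset ?_
  rintro _ ⟨x, rfl⟩ w
  exact ⟨x, rfl⟩

include hp hinj hfin in
theorem fv_ker (hC : Closed C) (hP : C P) : C f.ker := by
  classical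
  refine Pool.Agent.Y430.SS.of_directed hC _ (Finset f.ker)
    (fun a b => ⟨a ∪ b, Finset.subset_union_left, Finset.subset_union_right⟩)
    (fun S => (fac j f hp (cS j f S)).comap f.ker.subtype) ?_ ?_ ?_
  · intro S T hST w hw
    refine fac_mono j f hp (cS j f S) (cS j f T) (fun y w => y ⟨w.1, hST w.2⟩) ?_ hw
    rfl
  · intro w
    refine ⟨{w}, w.2, fun y => y ⟨w, Finset.mem_singleton_self w⟩, ?_⟩
    rfl
  · intro S
    obtain ⟨k, hk, c, ψ, hc, h⟩ := exists_col (cS j f S) (cS_finite j f hfin S)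
    have h1 : fac j f hp (cS j f S) ≤ fac j f hp c := fac_mono j f hp _ c ψ h
    refine hC.of_injective _ (k → P)
      ((val j f hp hc).comp
        { toFun := fun y => ⟨y.1.1, h1 y.2⟩
          map_one' := rfl
          map_mul' := fun a b => rfl }) ?_
      (Pool.Agent.Y812.SS.C_pow hC k P hP)
    refine (val_injective j f hp hinj hc).comp ?_
    intro a b hab
    apply Subtype.ext
    apply Subtype.ext
    exact congrArg (fun y : fac j f hp c => (y : W)) hab

include hinj in
/-- the partial automorphisms extend -/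
theorem fam_ext (hC : Closed C) (hE : ExtClosed C) (hP : C P) (g : W) :
    ∀ p ∈ Fam j f hp g, Ext C p := by
  rintro _ ⟨k, hk, c, hc, ⟨s₀, hs⟩, rfl⟩
  let R : k → k → Prop := fun i i' => ∃ x, c x = i ∧ c ((j g).p x) = i'
  obtain ⟨p, hp0, hW⟩ := exists_walk R
    (fun i => by
      obtain ⟨x, rfl⟩ := hc i
      exact ⟨_, x, rfl, rfl⟩)
    (fun i => by
      obtain ⟨x, rfl⟩ := hc i
      obtain ⟨y, rfl⟩ := (j g).p.surjective x
      exact ⟨_, y, rfl, rfl⟩)
  choose Wk hWk using hW
  let φ : (k → P) →* (k → EP P p) :=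
    { toFun := fun v i => (Wk i).mk' v 1
      map_one' := by
        funext i
        apply EP.j_injective P p hp0
        rw [Pi.one_apply, map_one]
        refine Wr.ext rfl ?_
        ext x
        exact add_zero x
      map_mul' := fun u v => by
        funext i
        apply EP.j_injective P p hp0
        rw [Pi.mul_apply, map_mul]
        refine Wr.ext ?_ ?_
        · funext x
          change u ((Wk i).w x) * v ((Wk i).w x) = u ((Wk i).w (x + 0)) * v ((Wk i).w x)
          rw [add_zero]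
        · ext x
          change x + 0 = x + 0 + 0
          rw [add_zero, add_zero] }
  have hφ : Function.Injective φ := by
    intro u v huv
    funext i
    have h1 := congrArg (fun e : k → EP P p => (EP.j P p (e i)).s 0) huv
    change u ((Wk i).w 0) = v ((Wk i).w 0) at h1
    rwa [hWk] at h1
  refine ⟨k → EP P p, inferInstance, φ.comp (val j f hp hc),
    fun i => (Wk i).mk' s₀ (Multiplicative.ofAdd 1),
    Pool.Agent.Y812.SS.C_pow hC k _ (EP.mem P p hC hE hp0 hP),
    hφ.comp (val_injective j f hp hinj hc), ?_⟩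
  intro a ha
  funext i
  apply EP.j_injective P p hp0
  rw [Pi.mul_apply, Pi.mul_apply, map_mul, map_mul]
  refine Wr.ext ?_ ?_
  · funext x
    change s₀ ((Wk i).w (x + 0)) * val j f hp hc ⟨a, _⟩ ((Wk i).w x) =
      val j f hp hc ⟨g * a * g⁻¹, _⟩ ((Wk i).w (x + 1)) * s₀ ((Wk i).w x)
    rw [add_zero]
    obtain ⟨y, hy1, hy2⟩ := (Wk i).hw x
    rw [← hy1, ← hy2]
    have e1 := congrFun (val_spec j f hp hc ⟨a, ha.1⟩) y
    have e2 := congrFun (val_spec j f hp hc ⟨g * a * g⁻¹, ha.2⟩) ((j g).p y)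
    change (j a).s y = val j f hp hc ⟨a, ha.1⟩ (c y) at e1
    change (j (g * a * g⁻¹)).s ((j g).p y) = val j f hp hc ⟨g * a * g⁻¹, ha.2⟩ (c ((j g).p y)) at e2
    have e3 : s₀ (c y) = (j g).s y := (congrFun hs y).symm
    rw [map_mul, map_mul, map_inv, conj_s _ _ (hp a ha.1.1)] at e2
    rw [e3, ← e1, ← e2, inv_mul_cancel_right]
  · ext x
    change x + 0 + 1 = x + 1 + 0
    ring

include hp hinj hfin in
/-- **Groups of functions with finitely many values.** -/
theorem fvr (hC : Closed C) (hE : ExtClosed C) (hP : C P) (hf : Function.Surjective f)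
    (hQ : C Q) : C W := by
  refine dir_kernel hC hE f hf hQ (fv_ker j f hp hfin hinj hC hP) ?_
  intro q _
  obtain ⟨g, hg⟩ := hf q
  exact ⟨g, hg, Fam j f hp g, fam_dir j f hp hfin g, fam_ext j f hp hinj hC hE hP g⟩

/-- The functions on an `H`-set `X` with finitely many values, extended by `H`. -/
def FV (P X H : Type) [Group P] [Group H] [MulAction H X] : Subgroup (Wr X P × H) where
  carrier := {a | (∀ x, a.1.p x = a.2 • x) ∧ (Set.range a.1.s).Finite}
  one_mem' := ⟨fun x => (one_smul H x).symm, (Set.finite_singleton (1 : P)).subset (by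
    rintro _ ⟨x, rfl⟩
    rfl)⟩
  mul_mem' := by
    rintro a b ⟨ha, ha'⟩ ⟨hb, hb'⟩
    refine ⟨fun x => ?_, (Set.Finite.image2 (fun u v => u * v) ha' hb').subset ?_⟩
    · change a.1.p (b.1.p x) = (a.2 * b.2) • x
      rw [ha, hb, mul_smul]
    · rintro _ ⟨x, rfl⟩
      exact ⟨_, ⟨b.1.p x, rfl⟩, _, ⟨x, rfl⟩, rfl⟩
  inv_mem' := by
    rintro a ⟨ha, ha'⟩
    refine ⟨fun x => ?_, (ha'.image (fun u => u⁻¹)).subset ?_⟩
    · change a.1.p.symm x = a.2⁻¹ • x
      rw [Equiv.symm_apply_eq, ha, smul_inv_smul]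
    · rintro _ ⟨x, rfl⟩
      exact ⟨_, ⟨a.1.p⁻¹ x, rfl⟩, rfl⟩

/-- **Functions with finitely many values.** -/
theorem fv_mem (hC : Closed C) (hE : ExtClosed C) {P X H : Type} [Group P] [Group H]
    [MulAction H X] (hP : C P) (hH : C H) : C (FV P X H) := by
  refine fvr ((MonoidHom.fst _ _).comp (FV P X H).subtype)
    ((MonoidHom.snd _ _).comp (FV P X H).subtype) ?_ ?_ ?_ hC hE hP ?_ hH
  · intro w hw
    ext x
    have h1 := w.2.1 x
    have h2 : w.1.2 = 1 := hw
    rw [h2, one_smul] at h1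
    exact h1
  · intro w
    exact w.2.2
  · intro w h1 h2
    exact Subtype.ext (Prod.ext h2 h1)
  · intro h
    exact ⟨⟨(⟨fun _ => 1, MulAction.toPerm h⟩, h), fun x => rfl,
      (Set.finite_singleton (1 : P)).subset (by
        rintro _ ⟨x, rfl⟩
        rfl)⟩, rfl⟩

end Pool.Agent.Q152.EM
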