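import Pool.Agent.Q152.EM.Fv
import Mathlib.Topology.LocallyConstant.Basic
import Mathlib.Topology.Algebra.ConstMulAction

/-!
# Locally constant functions
-/

set_option autoImplicit false
set_option linter.unusedSectionVars false
set_option linter.style.haveILetI false

namespace Pool.Agent.Q152.EM

open Pool.Agent.Y462.SS Pool.Agent.Q152.WP

variable {C : ∀ (G : Type) [Group G], Prop}

/-- The group of the locally constant functions on the space `X` with values in `P`, extended by a
group `H` which acts on `X` by homeomorphisms. -/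
def LC (P X H : Type) [Group P] [Group H] [TopologicalSpace X] [MulAction H X]
    [ContinuousConstSMul H X] : Subgroup (Wr X P × H) where
  carrier := {a | (∀ x, a.1.p x = a.2 • x) ∧ IsLocallyConstant a.1.s}
  one_mem' := ⟨fun x => (one_smul H x).symm, IsLocallyConstant.const 1⟩
  mul_mem' := by
    rintro a b ⟨ha, ha'⟩ ⟨hb, hb'⟩
    refine ⟨fun x => ?_, ?_⟩
    · change a.1.p (b.1.p x) = (a.2 * b.2) • x
      rw [ha, hb, mul_smul]
    · have h1 : (a * b).1.s = (fun x => a.1.s (b.2 • x)) * b.1.s := by
        funext x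
        change a.1.s (b.1.p x) * b.1.s x = a.1.s (b.2 • x) * b.1.s x
        rw [hb]
      rw [h1]
      exact (ha'.comp_continuous (continuous_const_smul b.2)).mul hb'
  inv_mem' := by
    rintro a ⟨ha, ha'⟩
    have h0 : ∀ x, a.1.p.symm x = a.2⁻¹ • x := by
      intro x
      rw [Equiv.symm_apply_eq, ha, smul_inv_smul]
    refine ⟨fun x => h0 x, ?_⟩
    have h1 : (a⁻¹).1.s = (fun x => a.1.s (a.2⁻¹ • x))⁻¹ := by
      funext x
      change (a.1.s (a.1.p.symm x))⁻¹ = (a.1.s (a.2⁻¹ • x))⁻¹
      rw [h0]
    rw [h1]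
    exact (ha'.comp_continuous (continuous_const_smul a.2⁻¹)).inv

/-- **Locally constant functions on compact spaces.** -/
theorem lc_mem (hC : Closed C) (hE : ExtClosed C) {P X H : Type} [Group P] [Group H]
    [TopologicalSpace X] [CompactSpace X] [MulAction H X] [ContinuousConstSMul H X] (hP : C P)
    (hH : C H) : C (LC P X H) := by
  refine hC.of_injective _ (FV P X H)
    { toFun := fun a => ⟨a.1, a.2.1, a.2.2.range_finite⟩
      map_one' := rfl
      map_mul' := fun a b => rfl } ?_ (fv_mem hC hE hP hH)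
  intro a b hab
  apply Subtype.ext
  exact congrArg (fun y : FV P X H => (y : Wr X P × H)) hab

/-- torsion-free groups -/
theorem fv_torsionFree {P X H : Type} [Group P] [Group H] [MulAction H X]
    (hP : ∀ u : P, IsOfFinOrder u → u = 1) (hH : ∀ h : H, IsOfFinOrder h → h = 1)
    (a : FV P X H) (ha : IsOfFinOrder a) : a = 1 := by
  have h1 : a.1.2 = 1 := hH _ (((MonoidHom.snd _ _).comp (FV P X H).subtype).isOfFinOrder ha)
  have hp : a.1.1.p = 1 := by
    ext x
    have h2 := a.2.1 x
    rw [h1, one_smul] at h2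
    exact h2
  have h3 : IsOfFinOrder a.1.1 := ((MonoidHom.fst _ _).comp (FV P X H).subtype).isOfFinOrder ha
  rw [isOfFinOrder_iff_pow_eq_one] at h3
  obtain ⟨n, hn, hn'⟩ := h3
  have h5 : ∀ (m : ℕ) (x : X), (a.1.1 ^ m).s x = a.1.1.s x ^ m := by
    intro m x
    induction m with
    | zero =>
      rw [pow_zero, pow_zero]
      rfl
    | succ m ih =>
      rw [pow_succ, Wr.mul_s, hp, pow_succ]
      change (a.1.1 ^ m).s x * a.1.1.s x = _
      rw [ih]
  apply Subtype.ext
  refine Prod.ext (Wr.ext ?_ hp) h1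
  funext x
  refine hP _ ?_
  rw [isOfFinOrder_iff_pow_eq_one]
  refine ⟨n, hn, ?_⟩
  rw [← h5, hn']
  rfl

end Pool.Agent.Q152.EM
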