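import Pool.Agent.Q152.EM.Lim
import Pool.Agent.Q152.EM.Lc
import Pool.Agent.Q105.FJ.TF
import Pool.Agent.Y179.SS.Free

/-!
# Mitotic groups
-/

set_option autoImplicit false
set_option linter.unusedSectionVars false
set_option linter.style.haveILetI false

namespace Pool.Agent.Q152.EM

open Pool.Agent.Y462.SS Pool.Agent.Q152.WP

variable {C : ∀ (G : Type) [Group G], Prop}

/-- Mitotic groups (Baumslag, Dyer and Heller): for each finitely generated subgroup `K` there are
elements `s`, `d` with `d a d⁻¹ = a (s a s⁻¹)` for all `a` in `K`, and such that `K` commutes with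
`s K s⁻¹`. -/
def Mitotic (M : Type) [Group M] : Prop :=
  ∀ S : Finset M, ∃ s d : M,
    (∀ a ∈ Subgroup.closure (S : Set M), d * a * d⁻¹ = a * (s * a * s⁻¹)) ∧
    (∀ a ∈ Subgroup.closure (S : Set M), ∀ b ∈ Subgroup.closure (S : Set M),
      a * (s * b * s⁻¹) = (s * b * s⁻¹) * a)

/-- three copies of the natural numbers -/
abbrev Om : Type := ℕ ⊕ (ℕ ⊕ ℕ)

/-- the exchange of the first two copies -/
def sw : Equiv.Perm Om :=
  (Equiv.sumAssoc ℕ ℕ ℕ).symm.trans
    ((Equiv.sumCongr (Equiv.sumComm ℕ ℕ) (Equiv.refl ℕ)).trans (Equiv.sumAssoc ℕ ℕ ℕ))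

/-- a permutation which maps the first copy to the union of the first two copies -/
def du : Equiv.Perm Om :=
  (Equiv.sumCongr Equiv.natSumNatEquivNat.symm Equiv.natSumNatEquivNat).trans
    (Equiv.sumAssoc ℕ ℕ ℕ)

/-- the free group of rank two -/
abbrev F2 : Type := FreeGroup Bool

/-- the action of the free group -/
def act : F2 →* Equiv.Perm Om := FreeGroup.lift (fun b => if b then du else sw)

instance : MulAction F2 Om := MulAction.compHom Om act

theorem smul_false (x : Om) : (FreeGroup.of false : F2) • x = sw x := by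
  change act (FreeGroup.of false) x = sw x
  unfold act
  rw [FreeGroup.lift_apply_of]
  rfl

theorem smul_true (x : Om) : (FreeGroup.of true : F2) • x = du x := by
  change act (FreeGroup.of true) x = du x
  unfold act
  rw [FreeGroup.lift_apply_of]
  rfl

section

variable {G : Type} [Group G]

/-- the functions supported on the first copy -/
def A0 : G →* (Om → G) where
  toFun g := Sum.elim (fun _ => g) (fun _ => 1)
  map_one' := by
    funext x
    rcases x with x | x
    · rfl
    · rfl
  map_mul' a b := by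
    funext x
    rcases x with x | x
    · rfl
    · exact (one_mul 1).symm

/-- the functions supported on the second copy -/
def A1 (g : G) : Om → G := Sum.elim (fun _ => 1) (Sum.elim (fun _ => g) (fun _ => 1))

theorem A1_sw (g : G) (x : Om) : A1 g (sw x) = A0 g x := by
  rcases x with x | x | x
  · rfl
  · rfl
  · rfl

theorem A0_du (g : G) (x : Om) : A0 g (du x) * A1 g (du x) = A0 g x := by
  rcases x with x | x
  · have h : du (Sum.inl x) = Equiv.sumAssoc ℕ ℕ ℕ (Sum.inl (Equiv.natSumNatEquivNat.symm x)) := rfl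
    rw [h]
    rcases Equiv.natSumNatEquivNat.symm x with y | y
    · exact mul_one g
    · exact one_mul g
  · exact one_mul 1

theorem A_comm (g g' : G) (x : Om) : A0 g x * A1 g' x = A1 g' x * A0 g x := by
  rcases x with x | x
  · exact (mul_one g).trans (one_mul g).symm
  · exact (one_mul _).trans (mul_one _).symm

theorem finite_range_A0 (g : G) : (Set.range (A0 g)).Finite := by
  refine (Set.toFinite {g, 1}).subset ?_
  rintro _ ⟨x, rfl⟩
  rcases x with x | x
  · exact Or.inl rfl
  · exact Or.inr rfl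

/-- the embedding -/
def io (G : Type) [Group G] : G →* FV G Om F2 where
  toFun g := ⟨(fn (A0 g), 1), fun x => (one_smul F2 x).symm, finite_range_A0 g⟩
  map_one' := by
    apply Subtype.ext
    refine Prod.ext (Wr.ext ?_ rfl) rfl
    exact map_one A0
  map_mul' a b := by
    apply Subtype.ext
    refine Prod.ext (Wr.ext ?_ rfl) (one_mul 1).symm
    exact map_mul A0 a b

theorem io_injective : Function.Injective (io G) := by
  intro a b hab
  exact congrFun (congrArg (fun y : FV G Om F2 => (y : Wr Om G × F2).1.s) hab) (Sum.inl 0)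

/-- the elements of the free group -/
def ff2 (G : Type) [Group G] (h : F2) : FV G Om F2 :=
  ⟨(⟨fun _ => 1, MulAction.toPerm h⟩, h), fun _ => rfl,
    (Set.finite_singleton (1 : G)).subset (by
      rintro _ ⟨x, rfl⟩
      rfl)⟩

theorem conj_ff2 (h : F2) (u : Om → G) (a : FV G Om F2) (ha : a.1 = (fn u, 1)) (v : Om → G)
    (hv : ∀ x, v (h • x) = u x) : (ff2 G h * a * (ff2 G h)⁻¹).1 = (fn v, 1) := by
  have h1 : (ff2 G h * a * (ff2 G h)⁻¹).1 = (ff2 G h).1 * a.1 * ((ff2 G h).1)⁻¹ := rfl
  rw [h1, ha]
  refine Prod.ext (Wr.ext ?_ ?_) ?_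
  · funext y
    obtain ⟨x, rfl⟩ := (MulAction.toPerm h : Equiv.Perm Om).surjective y
    have h2 := conj_s (ff2 G h).1.1 (fn u) rfl x
    refine (h2.trans ?_).trans (hv x).symm
    change 1 * u x * 1⁻¹ = u x
    rw [one_mul, inv_one, mul_one]
  · exact conj_p _ _ rfl
  · change h * 1 * h⁻¹ = 1
    rw [mul_one, mul_inv_cancel]

theorem conj_s2 (g : G) : (ff2 G (FreeGroup.of false) * io G g * (ff2 G (FreeGroup.of false))⁻¹).1 =
    (fn (A1 g), 1) :=
  conj_ff2 _ (A0 g) _ rfl _ (fun x => by rw [smul_false, A1_sw])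

theorem mit_d (g : G) : ff2 G (FreeGroup.of true) * io G g * (ff2 G (FreeGroup.of true))⁻¹ =
    io G g * (ff2 G (FreeGroup.of false) * io G g * (ff2 G (FreeGroup.of false))⁻¹) := by
  apply Subtype.ext
  rw [conj_ff2 (FreeGroup.of true) (A0 g) (io G g) rfl (fun x => A0 g x * A1 g x)
    (fun x => by rw [smul_true, A0_du])]
  have h1 : (io G g * (ff2 G (FreeGroup.of false) * io G g * (ff2 G (FreeGroup.of false))⁻¹)).1 =
    (io G g).1 * (ff2 G (FreeGroup.of false) * io G g * (ff2 G (FreeGroup.of false))⁻¹).1 := rfl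
  rw [h1, conj_s2]
  exact Prod.ext (Wr.ext rfl rfl) (one_mul 1).symm

theorem mit_s (g g' : G) :
    io G g * (ff2 G (FreeGroup.of false) * io G g' * (ff2 G (FreeGroup.of false))⁻¹) =
    (ff2 G (FreeGroup.of false) * io G g' * (ff2 G (FreeGroup.of false))⁻¹) * io G g := by
  apply Subtype.ext
  have h1 : (io G g * (ff2 G (FreeGroup.of false) * io G g' * (ff2 G (FreeGroup.of false))⁻¹)).1 =
    (io G g).1 * (ff2 G (FreeGroup.of false) * io G g' * (ff2 G (FreeGroup.of false))⁻¹).1 := rfl
  have h2 : ((ff2 G (FreeGroup.of false) * io G g' * (ff2 G (FreeGroup.of false))⁻¹) * io G g).1 =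
    (ff2 G (FreeGroup.of false) * io G g' * (ff2 G (FreeGroup.of false))⁻¹).1 * (io G g).1 := rfl
  rw [h1, h2, conj_s2]
  refine Prod.ext (Wr.ext ?_ rfl) rfl
  funext x
  exact A_comm g g' x

end

/-- The mitosis of `G`: the subgroup generated by `G` and the two elements. -/
def MT (G : Type) [Group G] : Subgroup (FV G Om F2) :=
  Subgroup.closure (Set.range (io G) ∪ {ff2 G (FreeGroup.of false), ff2 G (FreeGroup.of true)})

/-- the embedding in the mitosis -/
def iM (G : Type) [Group G] : G →* MT G :=
  (io G).codRestrict (MT G) (fun g => Subgroup.subset_closure (Or.inl ⟨g, rfl⟩))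

theorem iM_injective (G : Type) [Group G] : Function.Injective (iM G) := by
  intro a b hab
  exact io_injective (congrArg Subtype.val hab)

/-- transport of the relations -/
theorem push {G T L : Type} [Group G] [Group T] [Group L] (i : G →* T) (g : T →* L) (s d : T)
    (hd : ∀ a : G, d * i a * d⁻¹ = i a * (s * i a * s⁻¹))
    (hs : ∀ a b : G, i a * (s * i b * s⁻¹) = (s * i b * s⁻¹) * i a) :
    (∀ a : G, g d * g (i a) * (g d)⁻¹ = g (i a) * (g s * g (i a) * (g s)⁻¹)) ∧
    (∀ a b : G, g (i a) * (g s * g (i b) * (g s)⁻¹) = (g s * g (i b) * (g s)⁻¹) * g (i a)) := by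
  refine ⟨?_, ?_⟩
  · intro a
    have := congrArg g (hd a)
    simpa only [map_mul, map_inv] using this
  · intro a b
    have := congrArg g (hs a b)
    simpa only [map_mul, map_inv] using this

theorem exists_mitosis (G : Type) [Group G] : ∃ s d : MT G,
    (∀ a : G, d * iM G a * d⁻¹ = iM G a * (s * iM G a * s⁻¹)) ∧
    (∀ a b : G, iM G a * (s * iM G b * s⁻¹) = (s * iM G b * s⁻¹) * iM G a) := by
  refine ⟨⟨_, Subgroup.subset_closure (Or.inr (Or.inl rfl))⟩,
    ⟨_, Subgroup.subset_closure (Or.inr (Or.inr rfl))⟩, ?_, ?_⟩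
  · intro a
    exact Subtype.ext (mit_d a)
  · intro a b
    exact Subtype.ext (mit_s a b)

theorem MT_mem (hC : Closed C) (hE : ExtClosed C) {G : Type} [Group G] (hG : C G) : C (MT G) :=
  of_sub hC _ (fv_mem hC hE hG (Pool.Agent.Y179.SS.t_free C hC Bool))

theorem MT_torsionFree {G : Type} [Group G] (hG : ∀ u : G, IsOfFinOrder u → u = 1) (u : MT G)
    (hu : IsOfFinOrder u) : u = 1 := by
  apply Subtype.ext
  exact fv_torsionFree hG (Pool.Agent.Q105.FJ.TF.free Bool) _ ((MT G).subtype.isOfFinOrder hu)

/-- closures of countable sets -/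
theorem countable_closure {G : Type} [Group G] (s : Set G) (hs : s.Countable) :
    Countable (Subgroup.closure s) := by
  haveI : Countable s := hs
  haveI : Countable (FreeGroup s) := by
    unfold FreeGroup
    infer_instance
  have h1 : (FreeGroup.lift (Subtype.val : s → G)).range = Subgroup.closure s := by
    rw [FreeGroup.range_lift_eq_closure, Subtype.range_coe]
  rw [← h1]
  exact (FreeGroup.lift (Subtype.val : s → G)).rangeRestrict_surjective.countable

theorem MT_countable (G : Type) [Group G] [Countable G] : Countable (MT G) := by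
  refine countable_closure _ ((Set.countable_range _).union ?_)
  exact (Set.toFinite _).countable

/-- the iterated mitoses -/
def sq (G : Type) [Group G] : ℕ → (Σ T : Type, Group T)
  | 0 => ⟨G, inferInstance⟩
  | n + 1 => ⟨@MT (sq G n).1 (sq G n).2, inferInstance⟩

instance (G : Type) [Group G] (n : ℕ) : Group (sq G n).1 := (sq G n).2

/-- the embeddings of the iterated mitoses -/
def sqf (G : Type) [Group G] (n : ℕ) : (sq G n).1 →* (sq G (n + 1)).1 := iM (sq G n).1

/-- **Embedding in mitotic groups.** -/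
theorem mitotic_embed (G : Type) [Group G] : ∃ (M : Type) (_ : Group M) (k : G →* M),
    Function.Injective k ∧ Mitotic M ∧
    (∀ C : ∀ (G : Type) [Group G], Prop, Closed C → ExtClosed C → C G → C M) ∧
    ((∀ u : G, IsOfFinOrder u → u = 1) → ∀ u : M, IsOfFinOrder u → u = 1) ∧
    (Countable G → Countable M) := by
  obtain ⟨L, hL, g, hg, hgf, hgs⟩ := exists_union (fun n => (sq G n).1) (sqf G)
    (fun n => iM_injective _)
  refine ⟨L, hL, g 0, hg 0, ?_, ?_, ?_, ?_⟩
  · intro S
    obtain ⟨n, hn⟩ := exists_stage (fun n => (sq G n).1) (sqf G) L g hgf hgs S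
    have h1 : Subgroup.closure (S : Set L) ≤ (g n).range := (Subgroup.closure_le _).2 hn
    obtain ⟨s, d, hd, hs⟩ := exists_mitosis (sq G n).1
    obtain ⟨k1, k2⟩ := push (iM (sq G n).1) (g (n + 1)) s d hd hs
    refine ⟨g (n + 1) s, g (n + 1) d, ?_, ?_⟩
    · intro a ha
      obtain ⟨x, rfl⟩ := h1 ha
      rw [← hgf n x]
      exact k1 x
    · intro a ha b hb
      obtain ⟨x, rfl⟩ := h1 ha
      obtain ⟨y, rfl⟩ := h1 hb
      rw [← hgf n x, ← hgf n y]
      exact k2 x y
  · intro C hC hE hG
    refine union_mem hC (fun n => (sq G n).1) (sqf G) L g hg hgf hgs ?_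
    intro n
    induction n with
    | zero => exact hG
    | succ n ih => exact MT_mem hC hE ih
  · intro hG u hu
    obtain ⟨n, x, rfl⟩ := hgs u
    have hT : ∀ n, ∀ y : (sq G n).1, IsOfFinOrder y → y = 1 := by
      intro n
      induction n with
      | zero => exact hG
      | succ n ih => exact fun y hy => MT_torsionFree ih y hy
    have hx : IsOfFinOrder x := by
      rw [isOfFinOrder_iff_pow_eq_one] at hu ⊢
      obtain ⟨m, hm, hm'⟩ := hu
      refine ⟨m, hm, hg n ?_⟩
      rw [map_pow, hm', map_one]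
    rw [hT n x hx, map_one]
  · intro hG
    have hT : ∀ n, Countable (sq G n).1 := by
      intro n
      induction n with
      | zero => exact hG
      | succ n ih => exact @MT_countable _ _ ih
    haveI : ∀ n, Countable (sq G n).1 := hT
    have hsur : Function.Surjective (fun y : (Σ n, (sq G n).1) => g y.1 y.2) := by
      intro u
      obtain ⟨n, x, rfl⟩ := hgs u
      exact ⟨⟨n, x⟩, rfl⟩
    exact hsur.countable

end Pool.Agent.Q152.EM
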