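import Pool.Agent.Q152.EM.Two

/-!
# Countable families in one group with two generators
-/

set_option autoImplicit false
set_option linter.unusedSectionVars false
set_option linter.style.haveILetI false

namespace Pool.Agent.Q152.EM

open Pool.Agent.Y462.SS Pool.Agent.Q152.WP

variable {C : ∀ (G : Type) [Group G], Prop}

theorem fs_mem (hC : Closed C) {ι : Type} (D : ι → Type) [∀ i, Group (D i)]
    (h : ∀ i, C (D i)) : C (FS D) := by
  let f : FS D →* Multiplicative ℤ := 1
  let e : f.ker ≃* FS D :=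
    { toFun := fun g => g.1
      invFun := fun g => ⟨g, rfl⟩
      left_inv := fun g => rfl
      right_inv := fun g => rfl
      map_mul' := fun a b => rfl }
  have h1 : C f.ker := ((FS.dec D).trans e).ker_mem hC h
  exact hC.of_injective _ _ e.symm.toMonoidHom e.symm.injective h1

theorem fs_torsionFree {ι : Type} (D : ι → Type) [∀ i, Group (D i)]
    (h : ∀ i, ∀ u : D i, IsOfFinOrder u → u = 1) (u : FS D) (hu : IsOfFinOrder u) : u = 1 := by
  apply Subtype.ext
  funext i
  exact h i _ (((Pi.evalMonoidHom D i).comp (FS D).subtype).isOfFinOrder hu)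

/-- **Countable families.** -/
theorem embed_family (hC : Closed C) (hE : ExtClosed C)
    (hM : ∀ (G : Type) [Group G], Metab G → C G) (D : ℕ → Type) [∀ n, Group (D n)]
    (hD : ∀ n, Countable (D n)) (hCD : ∀ n, C (D n)) :
    ∃ (W : Type) (_ : Group W) (a b : W), C W ∧ Subgroup.closure {a, b} = ⊤ ∧
      (∀ n, ∃ k : D n →* W, Function.Injective k) ∧
      ((∀ n, ∀ u : D n, IsOfFinOrder u → u = 1) → ∀ u : W, IsOfFinOrder u → u = 1) := by
  haveI : Nonempty (Σ n, D n) := ⟨⟨0, 1⟩⟩
  obtain ⟨e, he⟩ := exists_surjective_nat (Σ n, D n)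
  let g : ℕ → FS D := fun i => (FS.dec D).sg (e i).1 (e i).2
  obtain ⟨W, hW, a, b, k, h1, h2, h3, h4⟩ := embed hC hE hM (fs_mem hC D hCD) g
  refine ⟨W, hW, a, b, h1, h2, ?_, fun h => h4 (fs_torsionFree D h)⟩
  intro n
  have h5 : ∀ u : D n, (FS.dec D).sg n u ∈ Subgroup.closure (Set.range g) := by
    intro u
    obtain ⟨i, hi⟩ := he ⟨n, u⟩
    refine Subgroup.subset_closure ⟨i, ?_⟩
    change (FS.dec D).sg (e i).1 (e i).2 = _
    rw [hi]
  refine ⟨k.comp (((FS.dec D).sg n).codRestrict _ h5), h3.comp ?_⟩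
  intro u v huv
  have h6 : (FS.dec D).sg n u = (FS.dec D).sg n v := congrArg Subtype.val huv
  have h7 := congrArg ((FS.dec D).ev n) h6
  rwa [(FS.dec D).ev_sg, (FS.dec D).ev_sg] at h7

end Pool.Agent.Q152.EM
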