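import Pool.Agent.Q152.EM.Fv
import Mathlib.Algebra.Colimit.DirectLimit

/-!
# Unions of sequences of groups
-/

set_option autoImplicit false
set_option linter.unusedSectionVars false
set_option linter.style.haveILetI false

namespace Pool.Agent.Q152.EM

open Pool.Agent.Y462.SS Pool.Agent.Q152.WP

variable {C : ∀ (G : Type) [Group G], Prop}

section

variable (T : ℕ → Type) [∀ n, Group (T n)] (f : ∀ n, T n →* T (n + 1))

/-- the maps of the system -/
def trn {i j : ℕ} (h : i ≤ j) : T i →* T j where
  toFun := Nat.leRecOn h (fun {k} => f k)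
  map_one' := by
    induction j, h using Nat.le_induction with
    | base => exact Nat.leRecOn_self _
    | succ j h ih => rw [Nat.leRecOn_succ h, ih, map_one]
  map_mul' x y := by
    induction j, h using Nat.le_induction with
    | base => rw [Nat.leRecOn_self, Nat.leRecOn_self, Nat.leRecOn_self]
    | succ j h ih => rw [Nat.leRecOn_succ h, Nat.leRecOn_succ h, Nat.leRecOn_succ h, ih, map_mul]

theorem trn_self (i : ℕ) (x : T i) : trn T f (le_refl i) x = x := Nat.leRecOn_self _

theorem trn_succ {i j : ℕ} (h : i ≤ j) (x : T i) :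
    trn T f (h.trans (Nat.le_succ j)) x = f j (trn T f h x) := Nat.leRecOn_succ h _

theorem trn_trans {i j k : ℕ} (h : i ≤ j) (h' : j ≤ k) (x : T i) :
    trn T f h' (trn T f h x) = trn T f (h.trans h') x := by
  induction k, h' using Nat.le_induction with
  | base => exact trn_self T f _ _
  | succ k h' ih => rw [trn_succ T f h', trn_succ T f (h.trans h'), ih]

theorem trn_injective (hf : ∀ n, Function.Injective (f n)) {i j : ℕ} (h : i ≤ j) :
    Function.Injective (trn T f h) := by
  induction j, h using Nat.le_induction with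
  | base =>
    intro x y hxy
    rwa [trn_self, trn_self] at hxy
  | succ j h ih =>
    intro x y hxy
    rw [trn_succ T f h, trn_succ T f h] at hxy
    exact ih (hf _ hxy)

/-- unions of sequences of groups -/
theorem exists_union (hf : ∀ n, Function.Injective (f n)) :
    ∃ (L : Type) (_ : Group L) (g : ∀ n, T n →* L), (∀ n, Function.Injective (g n)) ∧
      (∀ n x, g (n + 1) (f n x) = g n x) ∧ (∀ y : L, ∃ n x, g n x = y) := by
  haveI : DirectedSystem T (fun i j (h : i ≤ j) => trn T f h) :=
    { map_self := fun i x => trn_self T f i x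
      map_map := fun k j i hij hjk x => trn_trans T f hij hjk x }
  let fs : ∀ i j (h : i ≤ j), T i →* T j := fun i j h => trn T f h
  refine ⟨DirectLimit T fs, inferInstance, fun n =>
    { toFun := fun x => ⟦⟨n, x⟩⟧
      map_one' := (DirectLimit.one_def n).symm
      map_mul' := fun x y => (DirectLimit.mul_def n x y).symm }, ?_, ?_, ?_⟩
  · intro n x y hxy
    obtain ⟨k, h1, h2, h3⟩ := Quotient.exact hxy
    exact trn_injective T f hf h1 h3
  · intro n x
    refine Quotient.sound ⟨n + 1, le_rfl, Nat.le_succ n, ?_⟩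
    change trn T f _ (f n x) = trn T f _ x
    rw [trn_self, trn_succ T f (le_refl n), trn_self]
  · intro y
    obtain ⟨⟨i, x⟩, rfl⟩ := Quotient.exists_rep y
    exact ⟨i, x, rfl⟩

end

/-- unions of sequences of groups of the class -/
theorem union_mem (hC : Closed C) (T : ℕ → Type) [∀ n, Group (T n)] (f : ∀ n, T n →* T (n + 1))
    (L : Type) [Group L] (g : ∀ n, T n →* L) (hg : ∀ n, Function.Injective (g n))
    (hgf : ∀ n x, g (n + 1) (f n x) = g n x) (hL : ∀ y : L, ∃ n x, g n x = y)
    (hT : ∀ n, C (T n)) : C L := by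
  refine Pool.Agent.Y430.SS.of_directed hC L ℕ (fun i j => ⟨max i j, le_max_left _ _,
    le_max_right _ _⟩) (fun n => (g n).range) ?_ ?_ ?_
  · refine monotone_nat_of_le_succ ?_
    rintro n _ ⟨x, rfl⟩
    exact ⟨f n x, hgf n x⟩
  · intro y
    obtain ⟨n, x, rfl⟩ := hL y
    exact ⟨n, x, rfl⟩
  · intro n
    exact Pool.Agent.Y812.SS.C_equiv hC (MonoidHom.ofInjective (hg n)).symm (hT n)

/-- a finite set is contained in the image of a member of the sequence -/
theorem exists_stage (T : ℕ → Type) [∀ n, Group (T n)] (f : ∀ n, T n →* T (n + 1))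
    (L : Type) [Group L] (g : ∀ n, T n →* L)
    (hgf : ∀ n x, g (n + 1) (f n x) = g n x) (hL : ∀ y : L, ∃ n x, g n x = y)
    (s : Finset L) : ∃ n, ∀ y ∈ s, y ∈ (g n).range := by
  classical
  have hmono : Monotone (fun n => (g n).range) := by
    refine monotone_nat_of_le_succ ?_
    rintro n _ ⟨x, rfl⟩
    exact ⟨f n x, hgf n x⟩
  induction s using Finset.induction_on with
  | empty => exact ⟨0, fun y hy => absurd hy (Finset.notMem_empty y)⟩
  | insert a s ha ih =>
    obtain ⟨n, hn⟩ := ih
    obtain ⟨m, x, hx⟩ := hL a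
    refine ⟨max n m, fun y hy => ?_⟩
    rcases Finset.mem_insert.1 hy with rfl | hy
    · exact hmono (le_max_right n m) ⟨x, hx⟩
    · exact hmono (le_max_left n m) (hn y hy)

end Pool.Agent.Q152.EM
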