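import Pool.Agent.Q152.EM.Mit

/-!
# Multiple HNN extensions of powers of a group
-/

set_option autoImplicit false
set_option linter.unusedSectionVars false
set_option linter.style.haveILetI false

namespace Pool.Agent.Q152.EM

open Pool.Agent.Y462.SS Pool.Agent.Q152.WP Pool.Agent.Q105.FJ Pool.Agent.H26R2.Idem

variable {C : ∀ (G : Type) [Group G], Prop}

section multi

variable {ι G : Type} [Group G] {A B : ι → Subgroup G} (φ : ∀ i, A i ≃* B i)

/-- The HNN extension of `G` with several stable letters: the amalgamated free product over `G` of the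
HNN extensions with one stable letter. -/
abbrev MHN : Type :=
  Monoid.PushoutI (fun i => (HNNExtension.of : G →* HNNExtension G (A i) (B i) (φ i)))

variable {Q : Type} [Group Q] (f : G →* Q) (x : ι → Q)
  (hx : ∀ i (a : A i), x i * f a = f (φ i a : G) * x i)

theorem sgm (A : ι → Subgroup G) (f : G →* Q) (i : ι) (q : Q) (y : Q ⧸ (A i).map f) :
    (⟨i, q • y⟩ : Σ i, Q ⧸ (A i).map f) = q • (⟨i, y⟩ : Σ i, Q ⧸ (A i).map f) := rfl

/-- the homomorphisms of the HNN extensions with one stable letter -/
noncomputable def mf (hx : ∀ i (a : A i), x i * f a = f (φ i a : G) * x i) (i : ι) :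
    HNNExtension G (A i) (B i) (φ i) →* WW Q (Σ i, Q ⧸ (A i).map f) :=
  (wmap (Y' := Σ i, Q ⧸ (A i).map f) (Sigma.mk i) (sgm A f i)).comp (Psi f (x i) (hx i))

theorem mf_injective (hf : Function.Injective f) (i : ι) :
    Function.Injective (mf φ f x hx i) :=
  (wmap_injective (sgm A f i) sigma_mk_injective).comp (Psi_injective f hf (x i) (hx i))

theorem mf_of (i : ι) : (mf φ f x hx i).comp HNNExtension.of =
    (SemidirectProduct.inr : Q →* WW Q (Σ i, Q ⧸ (A i).map f)).comp f := by
  refine MonoidHom.ext (fun g => ?_)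
  have h1 : Psi f (x i) (hx i) (HNNExtension.of g) = SemidirectProduct.inr (f g) := by
    unfold Psi
    rw [HNNExtension.lift_of]
    rfl
  change wmap (Y' := Σ i, Q ⧸ (A i).map f) (Sigma.mk i) (sgm A f i)
    (Psi f (x i) (hx i) (HNNExtension.of g)) = SemidirectProduct.inr (f g)
  rw [h1]
  refine SemidirectProduct.ext ?_ rfl
  rw [wmap_left, SemidirectProduct.left_inr, SemidirectProduct.left_inr]
  exact map_one _

/-- **Multiple HNN extensions.** -/
theorem multi_mem [Nonempty ι] (hC : Closed C) (hE : ExtClosed C) (hf : Function.Injective f)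
    (hx : ∀ i (a : A i), x i * f a = f (φ i a : G) * x i) (hQ : C Q) : C (MHN φ) :=
  pushout_mem hC hE (fun i => HNNExtension.of_injective (φ i)) (mf φ f x hx) (mf_injective φ f x hx hf)
    _ (mf_of φ f x hx) (ww_mem hC hE _ _ hQ)

theorem multi_torsionFree [Nonempty ι] (hf : Function.Injective f)
    (hx : ∀ i (a : A i), x i * f a = f (φ i a : G) * x i) (hQ : TF Q) : TF (MHN φ) :=
  TF.pushout (fun i => HNNExtension.of_injective (φ i)) (mf φ f x hx) (mf_injective φ f x hx hf)
    _ (mf_of φ f x hx) (TF.semi (TF.free _) hQ)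

end multi

/-- permutations along a relation which is total in both directions -/
theorem exists_T {K : Type} [Countable K] (R : K → K → Prop) (hs : ∀ a, ∃ b, R a b)
    (hp : ∀ b, ∃ a, R a b) : ∃ T : Equiv.Perm (K × ℕ), ∀ ω, R ω.1 (T ω).1 := by
  have h1 : ∀ a, Nonempty (ℕ ≃ {b // R a b} × ℕ) := by
    intro a
    haveI : Nonempty {b // R a b} := by
      obtain ⟨b, hb⟩ := hs a
      exact ⟨⟨b, hb⟩⟩
    exact nonempty_equiv_of_countable
  have h2 : ∀ b, Nonempty (ℕ ≃ {a // R a b} × ℕ) := by
    intro b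
    haveI : Nonempty {a // R a b} := by
      obtain ⟨a, ha⟩ := hp b
      exact ⟨⟨a, ha⟩⟩
    exact nonempty_equiv_of_countable
  let E : K × ℕ ≃ Σ a, ({b // R a b} × ℕ) :=
    (Equiv.sigmaEquivProd K ℕ).symm.trans (Equiv.sigmaCongrRight (fun a => (h1 a).some))
  let E' : K × ℕ ≃ Σ b, ({a // R a b} × ℕ) :=
    (Equiv.sigmaEquivProd K ℕ).symm.trans (Equiv.sigmaCongrRight (fun b => (h2 b).some))
  let S : (Σ a, ({b // R a b} × ℕ)) ≃ Σ b, ({a // R a b} × ℕ) :=
    { toFun := fun z => ⟨z.2.1.1, (⟨z.1, z.2.1.2⟩, z.2.2)⟩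
      invFun := fun z => ⟨z.2.1.1, (⟨z.1, z.2.1.2⟩, z.2.2)⟩
      left_inv := fun z => rfl
      right_inv := fun z => rfl }
  refine ⟨E.trans (S.trans E'.symm), fun ω => ?_⟩
  have h3 : (E.trans (S.trans E'.symm) ω).1 = (E ω).2.1.1 := rfl
  rw [h3]
  exact (E ω).2.1.2

section powers

variable {P : Type} [Group P] {k m : Type}

/-- the homomorphism of powers given by a partial map -/
def pb (σ : k → Option m) : (m → P) →* (k → P) where
  toFun v := fun a => (σ a).elim 1 v
  map_one' := by
    funext a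
    cases h : σ a with
    | none => rfl
    | some z => rfl
  map_mul' u v := by
    funext a
    change (σ a).elim 1 (u * v) = (σ a).elim 1 u * (σ a).elim 1 v
    cases h : σ a with
    | none => exact (one_mul 1).symm
    | some z => rfl

theorem pb_injective (σ : k → Option m) (hσ : ∀ z, ∃ a, σ a = some z) :
    Function.Injective (pb σ : (m → P) →* (k → P)) := by
  intro u v huv
  funext z
  obtain ⟨a, ha⟩ := hσ z
  have h1 := congrFun huv a
  change (σ a).elim 1 u = (σ a).elim 1 v at h1
  rw [ha] at h1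
  exact h1

/-- the isomorphism of the associated subgroups -/
noncomputable def pbe (P : Type) [Group P] (σ τ : k → Option m) (hσ : ∀ z, ∃ a, σ a = some z)
    (hτ : ∀ z, ∃ a, τ a = some z) :
    (pb σ : (m → P) →* (k → P)).range ≃* (pb τ : (m → P) →* (k → P)).range :=
  (MonoidHom.ofInjective (pb_injective σ hσ)).symm.trans (MonoidHom.ofInjective (pb_injective τ hτ))

theorem pbe_spec (σ τ : k → Option m) (hσ : ∀ z, ∃ a, σ a = some z)
    (hτ : ∀ z, ∃ a, τ a = some z) (a : (pb σ : (m → P) →* (k → P)).range) :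
    ∃ v : m → P, (a : k → P) = pb σ v ∧ ((pbe P σ τ hσ hτ a : _) : k → P) = pb τ v := by
  refine ⟨(MonoidHom.ofInjective (pb_injective σ hσ)).symm a, ?_, rfl⟩
  have h1 := (MonoidHom.ofInjective (pb_injective (P := P) σ hσ)).apply_symm_apply a
  exact (congrArg Subtype.val h1).symm

/-- the extension of a function by `1` -/
def exo (u : k → P) : Option k → P := fun o => o.elim 1 u

theorem exo_pb (σ : k → Option m) (v : m → P) (o : Option k) :
    exo (pb σ v) o = (o.bind σ).elim 1 v := by
  cases o with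
  | none => rfl
  | some a => rfl

variable {ι : Type}

/-- the homomorphism to the group of functions with finitely many values -/
def fo (P : Type) [Group P] (k H : Type) [Finite k] [Group H] [MulAction H (Option k × ℕ)] :
    (k → P) →* FV P (Option k × ℕ) H where
  toFun u := ⟨(fn (fun ω => exo u ω.1), 1), fun x => (one_smul H x).symm, by
    refine (Set.toFinite (Set.range (exo u))).subset ?_
    rintro _ ⟨ω, rfl⟩
    exact ⟨ω.1, rfl⟩⟩
  map_one' := by
    apply Subtype.ext
    refine Prod.ext (Wr.ext ?_ rfl) rfl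
    funext ω
    change exo 1 ω.1 = 1
    cases ω.1 with
    | none => rfl
    | some a => rfl
  map_mul' u v := by
    apply Subtype.ext
    refine Prod.ext (Wr.ext ?_ rfl) (one_mul 1).symm
    funext ω
    change exo (u * v) ω.1 = exo u ω.1 * exo v ω.1
    cases ω.1 with
    | none => exact (one_mul 1).symm
    | some a => rfl

theorem fo_injective (P : Type) [Group P] (k H : Type) [Finite k] [Group H]
    [MulAction H (Option k × ℕ)] : Function.Injective (fo P k H) := by
  intro u v huv
  funext a
  have h1 := congrArg (fun y : FV P (Option k × ℕ) H => (y : Wr (Option k × ℕ) P × H).1.s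
    (some a, 0)) huv
  exact h1

/-- the element of the acting group -/
def ffo (P : Type) [Group P] {X H : Type} [Group H] [MulAction H X] (h : H) : FV P X H :=
  ⟨(⟨fun _ => 1, MulAction.toPerm h⟩, h), fun _ => rfl,
    (Set.finite_singleton (1 : P)).subset (by
      rintro _ ⟨x, rfl⟩
      rfl)⟩

/-- the data of the multiple HNN extension of the power -/
theorem exists_target [Finite k] (m : ι → Type) (σ τ : ∀ i, k → Option (m i))
    (hσ : ∀ i z, ∃ a, σ i a = some z) (hτ : ∀ i z, ∃ a, τ i a = some z) (P : Type) [Group P] :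
    ∃ (Q : Type) (_ : Group Q) (f : (k → P) →* Q) (x : ι → Q), Function.Injective f ∧
      (∀ i (a : (pb (σ i) : (m i → P) →* (k → P)).range),
        x i * f a = f (pbe P (σ i) (τ i) (hσ i) (hτ i) a : k → P) * x i) ∧
      (∀ C : ∀ (G : Type) [Group G], Prop, Closed C → ExtClosed C → C P → C Q) ∧
      (TF P → TF Q) := by
  have hT : ∀ i, ∃ T : Equiv.Perm (Option k × ℕ), ∀ ω,
      ω.1.bind (σ i) = (T ω).1.bind (τ i) := by
    intro i
    refine exists_T (fun a b : Option k => a.bind (σ i) = b.bind (τ i)) ?_ ?_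
    · intro a
      cases h : a.bind (σ i) with
      | none => exact ⟨none, rfl⟩
      | some z =>
        obtain ⟨b, hb⟩ := hτ i z
        exact ⟨some b, hb.symm⟩
    · intro b
      cases h : b.bind (τ i) with
      | none => exact ⟨none, rfl⟩
      | some z =>
        obtain ⟨a, ha⟩ := hσ i z
        exact ⟨some a, ha⟩
  choose T hT using hT
  letI : MulAction (FreeGroup ι) (Option k × ℕ) :=
    MulAction.compHom (Option k × ℕ) (FreeGroup.lift T)
  have hsm : ∀ (i : ι) (ω : Option k × ℕ), (FreeGroup.of i : FreeGroup ι) • ω = T i ω := by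
    intro i ω
    change FreeGroup.lift T (FreeGroup.of i) ω = T i ω
    rw [FreeGroup.lift_apply_of]
  refine ⟨FV P (Option k × ℕ) (FreeGroup ι), inferInstance, fo P k (FreeGroup ι),
    fun i => ffo P (FreeGroup.of i), fo_injective P k _, ?_, ?_, ?_⟩
  · intro i a
    obtain ⟨v, hv1, hv2⟩ := pbe_spec (P := P) (σ i) (τ i) (hσ i) (hτ i) a
    rw [hv2, hv1]
    apply Subtype.ext
    refine Prod.ext (Wr.ext ?_ ?_) ?_
    · funext ω
      change 1 * exo (pb (σ i) v) ω.1 =
        exo (pb (τ i) v) ((FreeGroup.of i : FreeGroup ι) • ω).1 * 1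
      rw [hsm, exo_pb, exo_pb, hT i ω, one_mul, mul_one]
    · ext ω
      rfl
      rfl
    · change FreeGroup.of i * 1 = 1 * FreeGroup.of i
      rw [one_mul, mul_one]
  · intro C hC hE hP
    exact fv_mem hC hE hP (Pool.Agent.Y179.SS.t_free C hC ι)
  · intro hP u hu
    exact fv_torsionFree hP (TF.free ι) u hu

/-- **Multiple HNN extensions of powers.** -/
theorem powers_mem [Finite k] [Nonempty ι] (m : ι → Type) (σ τ : ∀ i, k → Option (m i))
    (hσ : ∀ i z, ∃ a, σ i a = some z) (hτ : ∀ i z, ∃ a, τ i a = some z) (P : Type) [Group P] :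
    (∀ C : ∀ (G : Type) [Group G], Prop, Closed C → ExtClosed C → C P →
      C (MHN (fun i => pbe P (σ i) (τ i) (hσ i) (hτ i)))) ∧
    (TF P → TF (MHN (fun i => pbe P (σ i) (τ i) (hσ i) (hτ i)))) := by
  obtain ⟨Q, hQ, f, x, h1, h2, h3, h4⟩ := exists_target m σ τ hσ hτ P
  refine ⟨?_, ?_⟩
  · intro C hC hE hP
    exact multi_mem _ f x hC hE h1 h2 (h3 C hC hE hP)
  · intro hP
    exact multi_torsionFree _ f x h1 h2 (h4 hP)

end powers

end Pool.Agent.Q152.EM
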