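import Pool.Agent.Q152.EM.Step

/-!
# Eventually periodic functions on the integers, and walks
-/

set_option autoImplicit false
set_option linter.unusedSectionVars false
set_option linter.style.haveILetI false

namespace Pool.Agent.Q152.EM

open Pool.Agent.Y462.SS Pool.Agent.Q152.WP

variable {C : ∀ (G : Type) [Group G], Prop}

/-- The group of the triples `(w, r, n)`, `w` an element of the unrestricted wreath product which
translates by `n`, whose function is periodic near `∞` and near `-∞`, equal to the function of `r`. -/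
def EP (P : Type) [Group P] (p : ℕ) :
    Subgroup (Wr ℤ P × Wr (ZMod p × Bool) P × Multiplicative ℤ) where
  carrier := {a | (∀ x, a.1.p x = x + a.2.2.toAdd) ∧
    (∀ z, a.2.1.p z = (z.1 + (a.2.2.toAdd : ZMod p), z.2)) ∧
    (∃ N, ∀ x ≤ N, a.1.s x = a.2.1.s ((x : ZMod p), false)) ∧
    (∃ N, ∀ x ≥ N, a.1.s x = a.2.1.s ((x : ZMod p), true))}
  one_mem' := ⟨fun x => (add_zero x).symm, fun z => by
    change z = (z.1 + ((0 : ℤ) : ZMod p), z.2)
    rw [Int.cast_zero, add_zero], ⟨0, fun _ _ => rfl⟩, ⟨0, fun _ _ => rfl⟩⟩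
  mul_mem' := by
    rintro a b ⟨ha, hza, ⟨N, hN⟩, ⟨M, hM⟩⟩ ⟨hb, hzb, ⟨N', hN'⟩, ⟨M', hM'⟩⟩
    refine ⟨fun x => ?_, fun z => ?_, ⟨min N' (N - b.2.2.toAdd), fun x hx => ?_⟩,
      ⟨max M' (M - b.2.2.toAdd), fun x hx => ?_⟩⟩
    · change a.1.p (b.1.p x) = x + (a.2.2.toAdd + b.2.2.toAdd)
      rw [hb, ha]
      ring
    · change a.2.1.p (b.2.1.p z) = (z.1 + ((a.2.2.toAdd + b.2.2.toAdd : ℤ) : ZMod p), z.2)
      rw [hzb, hza]
      refine Prod.ext ?_ rfl
      change z.1 + (b.2.2.toAdd : ZMod p) + (a.2.2.toAdd : ZMod p) = _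
      push_cast
      ring
    · change a.1.s (b.1.p x) * b.1.s x =
        a.2.1.s (b.2.1.p ((x : ZMod p), false)) * b.2.1.s ((x : ZMod p), false)
      have h1 : x ≤ N' := hx.trans (min_le_left _ _)
      have h2 : x ≤ N - b.2.2.toAdd := hx.trans (min_le_right _ _)
      rw [hb, hN' x h1, hN _ (by linarith), hzb]
      push_cast
      rfl
    · change a.1.s (b.1.p x) * b.1.s x =
        a.2.1.s (b.2.1.p ((x : ZMod p), true)) * b.2.1.s ((x : ZMod p), true)
      have h1 : M' ≤ x := (le_max_left _ _).trans hx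
      have h2 : M - b.2.2.toAdd ≤ x := (le_max_right _ _).trans hx
      rw [hb, hM' x h1, hM _ (by linarith), hzb]
      push_cast
      rfl
  inv_mem' := by
    rintro a ⟨ha, hza, ⟨N, hN⟩, ⟨M, hM⟩⟩
    have hp : ∀ x, a.1.p.symm x = x - a.2.2.toAdd := by
      intro x
      rw [Equiv.symm_apply_eq, ha]
      ring
    have hzp : ∀ z, a.2.1.p.symm z = (z.1 - (a.2.2.toAdd : ZMod p), z.2) := by
      intro z
      rw [Equiv.symm_apply_eq, hza]
      refine Prod.ext ?_ rfl
      change z.1 = z.1 - (a.2.2.toAdd : ZMod p) + (a.2.2.toAdd : ZMod p)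
      ring
    refine ⟨fun x => ?_, fun z => ?_, ⟨N + a.2.2.toAdd, fun x hx => ?_⟩,
      ⟨M + a.2.2.toAdd, fun x hx => ?_⟩⟩
    · change a.1.p.symm x = x + (-a.2.2.toAdd)
      rw [hp]
      ring
    · change a.2.1.p.symm z = (z.1 + ((-a.2.2.toAdd : ℤ) : ZMod p), z.2)
      rw [hzp]
      push_cast
      rw [sub_eq_add_neg]
    · change (a.1.s (a.1.p.symm x))⁻¹ = (a.2.1.s (a.2.1.p.symm ((x : ZMod p), false)))⁻¹
      rw [hp, hN _ (by linarith), hzp]
      push_cast
      rfl
    · change (a.1.s (a.1.p.symm x))⁻¹ = (a.2.1.s (a.2.1.p.symm ((x : ZMod p), true)))⁻¹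
      rw [hp, hM _ (by linarith), hzp]
      push_cast
      rfl

variable (P : Type) [Group P] (p : ℕ)

/-- the element of the unrestricted wreath product -/
def EP.j : EP P p →* Wr ℤ P := (MonoidHom.fst _ _).comp (EP P p).subtype

/-- the periodic parts and the translation -/
def EP.f : EP P p →* Wr (ZMod p × Bool) P × Multiplicative ℤ :=
  (MonoidHom.snd _ _).comp (EP P p).subtype

theorem exists_large (hp : 0 < p) (z : ZMod p) (M : ℤ) : ∃ x ≥ M, (x : ZMod p) = z := by
  haveI : NeZero p := ⟨hp.ne'⟩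
  refine ⟨z.val + p * M.natAbs, ?_, ?_⟩
  · have h1 : (0 : ℤ) ≤ z.val := by positivity
    have h2 : M ≤ M.natAbs := Int.le_natAbs
    have h3 : (1 : ℤ) ≤ p := by exact_mod_cast hp
    have h4 : (0 : ℤ) ≤ M.natAbs := by positivity
    nlinarith
  · push_cast
    rw [ZMod.natCast_zmod_val, ZMod.natCast_self, zero_mul, add_zero]

theorem exists_small (hp : 0 < p) (z : ZMod p) (M : ℤ) : ∃ x ≤ M, (x : ZMod p) = z := by
  obtain ⟨x, hx, hx'⟩ := exists_large p hp (-z) (-M)
  refine ⟨-x, by linarith, ?_⟩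
  push_cast
  rw [hx', neg_neg]

theorem EP.j_injective (hp : 0 < p) : Function.Injective (EP.j P p) := by
  rintro ⟨⟨w, r, n⟩, h1, h2, ⟨N, hN⟩, ⟨M, hM⟩⟩ ⟨⟨w', r', n'⟩, h1', h2', ⟨N', hN'⟩, ⟨M', hM'⟩⟩ h
  have hw : w = w' := h
  subst hw
  have hn : n = n' := by
    have e1 := h1 0
    have e2 := h1' 0
    have e3 : (0 : ℤ) + n.toAdd = 0 + n'.toAdd := e1.symm.trans e2
    rw [zero_add, zero_add] at e3
    exact e3
  subst hn
  have hr : r = r' := by
    refine Wr.ext ?_ ?_
    · funext z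
      obtain ⟨z, b⟩ := z
      cases b with
      | false =>
        obtain ⟨x, hx, hx'⟩ := exists_small p hp z (min N N')
        have e1 := hN x (hx.trans (min_le_left _ _))
        have e2 := hN' x (hx.trans (min_le_right _ _))
        rw [hx'] at e1 e2
        exact e1.symm.trans e2
      | true =>
        obtain ⟨x, hx, hx'⟩ := exists_large p hp z (max M M')
        have e1 := hM x ((le_max_left _ _).trans hx)
        have e2 := hM' x ((le_max_right _ _).trans hx)
        rw [hx'] at e1 e2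
        exact e1.symm.trans e2
    · refine Equiv.ext (fun z => ?_)
      exact (h2 z).trans (h2' z).symm
  subst hr
  rfl

theorem EP.ker (w : EP P p) (hw : EP.f P p w = 1) :
    (EP.j P p w).p = 1 ∧ {x | (EP.j P p w).s x ≠ 1}.Finite := by
  obtain ⟨⟨w, r, n⟩, h1, h2, ⟨N, hN⟩, ⟨M, hM⟩⟩ := w
  have hr : r = 1 := congrArg Prod.fst hw
  have hn : n = 1 := congrArg Prod.snd hw
  subst hr
  subst hn
  refine ⟨?_, ?_⟩
  · ext x
    have := h1 x
    exact this.trans (add_zero x)
  · refine (Set.finite_Icc N M).subset ?_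
    intro x hx
    refine ⟨?_, ?_⟩
    · by_contra h
      exact hx (hN x (by linarith))
    · by_contra h
      exact hx (hM x (by linarith))

/-- the group is in the class -/
theorem EP.mem (hC : Closed C) (hE : ExtClosed C) (hp : 0 < p) (hP : C P) : C (EP P p) := by
  haveI : NeZero p := ⟨hp.ne'⟩
  have hfin : Finite (ZMod p × Bool) := inferInstance
  have h1 : C (Wr (ZMod p × Bool) P × Multiplicative ℤ) :=
    hC.prod _ _ (Pool.Agent.Y812.SS.t_wr C hC _ P hfin hP) hC.int
  refine unr (EP.j P p) (EP.f P p).rangeRestrict ?_ hC hE hP (EP.j_injective P p hp)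
    (EP.f P p).rangeRestrict_surjective (of_sub hC _ h1)
  intro w hw
  exact EP.ker P p w (congrArg Subtype.val hw)

end Pool.Agent.Q152.EM
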