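import Pool.Agent.Q152.EM.Unr

/-!
# Functions on the integers which are trivial at minus infinity and constant at infinity
-/

set_option autoImplicit false
set_option linter.unusedSectionVars false
set_option linter.style.haveILetI false

namespace Pool.Agent.Q152.EM

open Pool.Agent.Y462.SS Pool.Agent.Q152.WP

variable {C : ∀ (G : Type) [Group G], Prop}

/-- the translations -/
def tr (H : Type) [Group H] : Multiplicative ℤ →* Wr ℤ H where
  toFun n := ⟨fun _ => 1, Equiv.addRight n.toAdd⟩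
  map_one' := by
    refine Wr.ext rfl ?_
    ext x
    change x + 0 = x
    rw [add_zero]
  map_mul' a b := by
    refine Wr.ext ?_ ?_
    · funext x
      change (1 : H) = 1 * 1
      rw [one_mul]
    · ext x
      change x + (a.toAdd + b.toAdd) = x + b.toAdd + a.toAdd
      ring

theorem tr_p {H : Type} [Group H] (n : Multiplicative ℤ) (x : ℤ) : (tr H n).p x = x + n.toAdd :=
  rfl

theorem tr_s {H : Type} [Group H] (n : Multiplicative ℤ) (x : ℤ) : (tr H n).s x = 1 := rfl

/-- an element with trivial translation -/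
def fn {X H : Type} (s : X → H) : Wr X H := ⟨s, 1⟩

/-- functions -/
def fnh (X H : Type) [Group H] : (X → H) →* Wr X H where
  toFun := fn
  map_one' := rfl
  map_mul' _ _ := rfl

theorem conj_tr {H : Type} [Group H] (n : Multiplicative ℤ) (s : ℤ → H) :
    tr H n * fn s * (tr H n)⁻¹ = fn (fun x => s (x - n.toAdd)) := by
  refine Wr.ext ?_ (conj_p _ _ rfl)
  funext x
  have h := conj_s (tr H n) (fn s) rfl (x - n.toAdd)
  rw [tr_p, sub_add_cancel] at h
  rw [h, tr_s, one_mul, inv_one, mul_one]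
  rfl

/-- The group of the triples `(w, g, n)`, `w` an element of the unrestricted wreath product which
translates by `n`, which is trivial at `-∞` and equal to `g` at `∞`. -/
def Ev (G : Type) [Group G] : Subgroup (Wr ℤ G × G × Multiplicative ℤ) where
  carrier := {a | (∀ x, a.1.p x = x + a.2.2.toAdd) ∧ (∃ N, ∀ x ≤ N, a.1.s x = 1) ∧
    (∃ N, ∀ x ≥ N, a.1.s x = a.2.1)}
  one_mem' := ⟨fun x => (add_zero x).symm, ⟨0, fun _ _ => rfl⟩, ⟨0, fun _ _ => rfl⟩⟩
  mul_mem' := by
    rintro a b ⟨ha, ⟨N, hN⟩, ⟨M, hM⟩⟩ ⟨hb, ⟨N', hN'⟩, ⟨M', hM'⟩⟩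
    refine ⟨fun x => ?_, ⟨min N' (N - b.2.2.toAdd), fun x hx => ?_⟩,
      ⟨max M' (M - b.2.2.toAdd), fun x hx => ?_⟩⟩
    · change a.1.p (b.1.p x) = x + (a.2.2.toAdd + b.2.2.toAdd)
      rw [hb, ha]
      ring
    · change a.1.s (b.1.p x) * b.1.s x = 1
      have h1 : x ≤ N' := hx.trans (min_le_left _ _)
      have h2 : x ≤ N - b.2.2.toAdd := hx.trans (min_le_right _ _)
      rw [hb, hN' x h1, hN _ (by linarith), one_mul]
    · change a.1.s (b.1.p x) * b.1.s x = a.2.1 * b.2.1
      have h1 : M' ≤ x := (le_max_left _ _).trans hx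
      have h2 : M - b.2.2.toAdd ≤ x := (le_max_right _ _).trans hx
      rw [hb, hM' x h1, hM _ (by linarith)]
  inv_mem' := by
    rintro a ⟨ha, ⟨N, hN⟩, ⟨M, hM⟩⟩
    have hp : ∀ x, a.1.p.symm x = x - a.2.2.toAdd := by
      intro x
      rw [Equiv.symm_apply_eq, ha]
      ring
    refine ⟨fun x => ?_, ⟨N + a.2.2.toAdd, fun x hx => ?_⟩,
      ⟨M + a.2.2.toAdd, fun x hx => ?_⟩⟩
    · change a.1.p.symm x = x + (-a.2.2.toAdd)
      rw [hp]
      ring
    · change (a.1.s (a.1.p.symm x))⁻¹ = 1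
      rw [hp, hN _ (by linarith), inv_one]
    · change (a.1.s (a.1.p.symm x))⁻¹ = a.2.1⁻¹
      rw [hp, hM _ (by linarith)]

/-- the element of the unrestricted wreath product -/
def Ev.j (G : Type) [Group G] : Ev G →* Wr ℤ G := (MonoidHom.fst _ _).comp (Ev G).subtype

/-- the value at infinity and the translation -/
def Ev.f (G : Type) [Group G] : Ev G →* G × Multiplicative ℤ :=
  (MonoidHom.snd _ _).comp (Ev G).subtype

theorem Ev.j_injective (G : Type) [Group G] : Function.Injective (Ev.j G) := by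
  rintro ⟨⟨w, g, n⟩, h1, _, ⟨M, hM⟩⟩ ⟨⟨w', g', n'⟩, h1', _, ⟨M', hM'⟩⟩ h
  have hw : w = w' := h
  subst hw
  have hg : g = g' := by
    have e1 := hM (max M M') (le_max_left _ _)
    have e2 := hM' (max M M') (le_max_right _ _)
    exact e1.symm.trans e2
  have hn : n = n' := by
    have e1 := h1 0
    have e2 := h1' 0
    have e3 : (0 : ℤ) + n.toAdd = 0 + n'.toAdd := e1.symm.trans e2
    rw [zero_add, zero_add] at e3
    exact e3
  subst hg
  subst hn
  rfl

open scoped Classical in
/-- the step function -/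
noncomputable def Ev.step {G : Type} [Group G] (g : G) : Ev G :=
  ⟨(fn (fun x : ℤ => if 0 ≤ x then g else 1), g, 1), fun x => (add_zero x).symm,
    ⟨-1, fun x hx => if_neg (by linarith)⟩, ⟨0, fun x hx => if_pos hx⟩⟩

/-- the translation -/
def Ev.t (G : Type) [Group G] (n : Multiplicative ℤ) : Ev G :=
  ⟨(tr G n, 1, n), fun _ => rfl, ⟨0, fun _ _ => rfl⟩, ⟨0, fun _ _ => rfl⟩⟩

theorem Ev.f_surjective (G : Type) [Group G] : Function.Surjective (Ev.f G) := by
  rintro ⟨g, n⟩
  refine ⟨Ev.step g * Ev.t G n, ?_⟩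
  refine Prod.ext ?_ ?_
  · change g * 1 = g
    rw [mul_one]
  · change 1 * n = n
    rw [one_mul]

theorem Ev.ker (G : Type) [Group G] (w : Ev G) (hw : Ev.f G w = 1) :
    (Ev.j G w).p = 1 ∧ {x | (Ev.j G w).s x ≠ 1}.Finite := by
  obtain ⟨⟨w, g, n⟩, h1, ⟨N, hN⟩, ⟨M, hM⟩⟩ := w
  have hg : g = 1 := congrArg Prod.fst hw
  have hn : n = 1 := congrArg Prod.snd hw
  subst hg
  subst hn
  refine ⟨?_, ?_⟩
  · ext x
    have := h1 x
    exact this.trans (add_zero x)
  · refine (Set.finite_Icc N M).subset ?_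
    intro x hx
    refine ⟨?_, ?_⟩
    · by_contra h
      exact hx (hN x (by linarith))
    · by_contra h
      exact hx (hM x (by linarith))

/-- the group is in the class -/
theorem Ev.mem (hC : Closed C) (hE : ExtClosed C) {G : Type} [Group G] (hG : C G) : C (Ev G) :=
  unr (Ev.j G) (Ev.f G) (Ev.ker G) hC hE hG (Ev.j_injective G) (Ev.f_surjective G)
    (hC.prod _ _ hG hC.int)

open scoped Classical in
/-- the functions supported at one point -/
noncomputable def pt {X H : Type} [Group H] (x₀ : X) : H →* Wr X H where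
  toFun g := fn (fun x => if x = x₀ then g else 1)
  map_one' := by
    refine Wr.ext ?_ rfl
    funext x
    change (if x = x₀ then (1 : H) else 1) = 1
    rw [ite_self]
  map_mul' a b := by
    refine Wr.ext ?_ rfl
    funext x
    change (if x = x₀ then a * b else 1) = (if x = x₀ then a else 1) * (if x = x₀ then b else 1)
    by_cases h : x = x₀
    · rw [if_pos h, if_pos h, if_pos h]
    · rw [if_neg h, if_neg h, if_neg h, one_mul]

theorem pt_injective {X H : Type} [Group H] (x₀ : X) :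
    Function.Injective (pt x₀ : H →* Wr X H) := by
  classical
  intro a b hab
  have h := congrFun (congrArg Wr.s hab) x₀
  change (if x₀ = x₀ then a else 1) = (if x₀ = x₀ then b else 1) at h
  rwa [if_pos rfl, if_pos rfl] at h

/-- the commutator of the step function and the translation -/
noncomputable def Ev.del {G : Type} [Group G] (g : G) : Ev G :=
  Ev.step g * Ev.t G (Multiplicative.ofAdd 1) * (Ev.step g)⁻¹ * (Ev.t G (Multiplicative.ofAdd 1))⁻¹

theorem Ev.j_del {G : Type} [Group G] (g : G) : Ev.j G (Ev.del g) = pt (0 : ℤ) g := by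
  classical
  unfold Ev.del
  rw [map_mul, map_mul, map_mul, map_inv, map_inv]
  have h1 : Ev.j G (Ev.step g) = fn (fun x : ℤ => if 0 ≤ x then g else 1) := rfl
  have h2 : Ev.j G (Ev.t G (Multiplicative.ofAdd 1)) = tr G (Multiplicative.ofAdd 1) := rfl
  rw [h1, h2]
  have h3 : (fn (fun x : ℤ => if 0 ≤ x then g else 1) : Wr ℤ G)⁻¹ =
      fn (fun x : ℤ => (if 0 ≤ x then g else 1)⁻¹) := (map_inv (fnh ℤ G) _).symm
  have h4 := conj_tr (Multiplicative.ofAdd 1) (fun x : ℤ => (if 0 ≤ x then g else 1)⁻¹)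
  have h5 : (fn (fun x : ℤ => if 0 ≤ x then g else 1) : Wr ℤ G) * tr G (Multiplicative.ofAdd 1) *
      (fn (fun x : ℤ => if 0 ≤ x then g else 1))⁻¹ * (tr G (Multiplicative.ofAdd 1))⁻¹ =
      fn (fun x : ℤ => if 0 ≤ x then g else 1) * (tr G (Multiplicative.ofAdd 1) *
      (fn (fun x : ℤ => if 0 ≤ x then g else 1))⁻¹ * (tr G (Multiplicative.ofAdd 1))⁻¹) := by
    simp only [mul_assoc]
  rw [h5, h3, h4]
  refine Wr.ext ?_ rfl
  funext x
  change (if 0 ≤ x then g else 1) * (if 0 ≤ x - 1 then g else 1)⁻¹ =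
    @ite _ (x = 0) (Classical.propDecidable _) g 1
  by_cases h6 : x = 0
  · subst h6
    simp
  · by_cases h7 : 0 ≤ x
    · have h8 : 0 ≤ x - 1 := by omega
      rw [if_pos h7, if_pos h8, mul_inv_cancel, if_neg h6]
    · have h8 : ¬ 0 ≤ x - 1 := by omega
      rw [if_neg h7, if_neg h8, inv_one, mul_one, if_neg h6]

/-- the embedding of the group in the commutator subgroup -/
noncomputable def Ev.emb (G : Type) [Group G] : G →* Ev G where
  toFun := Ev.del
  map_one' := by
    apply Ev.j_injective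
    rw [Ev.j_del, map_one, map_one]
  map_mul' a b := by
    apply Ev.j_injective
    rw [map_mul, Ev.j_del, Ev.j_del, Ev.j_del, map_mul]

theorem Ev.emb_injective (G : Type) [Group G] : Function.Injective (Ev.emb G) := by
  intro a b hab
  have h := congrArg (Ev.j G) hab
  change Ev.j G (Ev.del a) = Ev.j G (Ev.del b) at h
  rw [Ev.j_del, Ev.j_del] at h
  exact pt_injective _ h

end Pool.Agent.Q152.EM
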