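import Pool.Agent.Q152.EM.Step
import Pool.Agent.Q152.WP.KS2

/-!
# Embedding in groups with two generators
-/

set_option autoImplicit false
set_option linter.unusedSectionVars false
set_option linter.style.haveILetI false

namespace Pool.Agent.Q152.EM

open Pool.Agent.Y462.SS Pool.Agent.Q152.WP

variable {C : ∀ (G : Type) [Group G], Prop}

/-- the commutator -/
def com {G : Type} [Group G] (a b : G) : G := a * b * a⁻¹ * b⁻¹

/-- metabelian groups: the commutators commute -/
def Metab (G : Type) [Group G] : Prop := ∀ a b c d : G, com a b * com c d = com c d * com a b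

theorem com_map {G G' : Type} [Group G] [Group G'] (f : G →* G') (a b : G) :
    f (com a b) = com (f a) (f b) := by
  unfold com
  rw [map_mul, map_mul, map_mul, map_inv, map_inv]

section metab

variable {G : Type} [Group G] (x t : G)
  (hc : ∀ a b : ℤ, (t ^ a * x * (t ^ a)⁻¹) * (t ^ b * x * (t ^ b)⁻¹) =
    (t ^ b * x * (t ^ b)⁻¹) * (t ^ a * x * (t ^ a)⁻¹))

/-- the normal closure -/
def Ac : Subgroup G := Subgroup.closure (Set.range (fun a : ℤ => t ^ a * x * (t ^ a)⁻¹))

include hc in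
theorem Ac_comm : ∀ u ∈ Ac x t, ∀ v ∈ Ac x t, u * v = v * u := by
  intro u hu v hv
  have h1 : ∀ a : ℤ, ∀ v ∈ Ac x t, (t ^ a * x * (t ^ a)⁻¹) * v = v * (t ^ a * x * (t ^ a)⁻¹) := by
    intro a v hv
    have h2 : Ac x t ≤ Subgroup.centralizer {t ^ a * x * (t ^ a)⁻¹} := by
      refine (Subgroup.closure_le _).2 ?_
      rintro _ ⟨b, rfl⟩
      rw [SetLike.mem_coe, Subgroup.mem_centralizer_iff]
      intro y hy
      rw [Set.mem_singleton_iff] at hy
      subst hy
      exact hc a b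
    exact Subgroup.mem_centralizer_iff.1 (h2 hv) _ rfl
  have h3 : Ac x t ≤ Subgroup.centralizer {v} := by
    refine (Subgroup.closure_le _).2 ?_
    rintro _ ⟨b, rfl⟩
    rw [SetLike.mem_coe, Subgroup.mem_centralizer_iff]
    intro y hy
    rw [Set.mem_singleton_iff] at hy
    subst hy
    exact (h1 b _ hv).symm
  exact (Subgroup.mem_centralizer_iff.1 (h3 hu) v rfl).symm

theorem Ac_conj (n : ℤ) : ∀ u ∈ Ac x t, t ^ n * u * (t ^ n)⁻¹ ∈ Ac x t := by
  intro u hu
  have h2 : Ac x t ≤ (Ac x t).comap (MulAut.conj (t ^ n)).toMonoidHom := by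
    refine (Subgroup.closure_le _).2 ?_
    rintro _ ⟨b, rfl⟩
    change t ^ n * (t ^ b * x * (t ^ b)⁻¹) * (t ^ n)⁻¹ ∈ Ac x t
    have h3 : t ^ n * (t ^ b * x * (t ^ b)⁻¹) * (t ^ n)⁻¹ = t ^ (n + b) * x * (t ^ (n + b))⁻¹ := by
      rw [zpow_add, mul_inv_rev]
      simp only [mul_assoc]
    rw [h3]
    exact Subgroup.subset_closure ⟨n + b, rfl⟩
  exact h2 hu

theorem mem_nf : ∀ g ∈ Subgroup.closure {x, t}, ∃ u ∈ Ac x t, ∃ n : ℤ, g = u * t ^ n := by
  intro g hg
  induction hg using Subgroup.closure_induction with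
  | mem y hy =>
    rcases hy with rfl | hy
    · refine ⟨y, Subgroup.subset_closure ⟨0, ?_⟩, 0, ?_⟩
      · simp
      · simp
    · rw [Set.mem_singleton_iff] at hy
      subst hy
      exact ⟨1, one_mem _, 1, by simp⟩
  | one => exact ⟨1, one_mem _, 0, by simp⟩
  | mul a b _ _ ha hb =>
    obtain ⟨u, hu, n, rfl⟩ := ha
    obtain ⟨v, hv, m, rfl⟩ := hb
    refine ⟨u * (t ^ n * v * (t ^ n)⁻¹), mul_mem hu (Ac_conj x t n v hv), n + m, ?_⟩
    rw [zpow_add]
    simp only [mul_assoc, inv_mul_cancel_left]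
  | inv a _ ha =>
    obtain ⟨u, hu, n, rfl⟩ := ha
    refine ⟨t ^ (-n) * u⁻¹ * (t ^ (-n))⁻¹, Ac_conj x t (-n) _ (inv_mem hu), -n, ?_⟩
    rw [mul_inv_rev, zpow_neg]
    simp only [mul_assoc, inv_mul_cancel, mul_one]

theorem com_mem (a b : G) (ha : a ∈ Subgroup.closure {x, t}) (hb : b ∈ Subgroup.closure {x, t}) :
    com a b ∈ Ac x t := by
  obtain ⟨u, hu, n, rfl⟩ := mem_nf x t a ha
  obtain ⟨v, hv, m, rfl⟩ := mem_nf x t b hb
  have h : com (u * t ^ n) (v * t ^ m) = u * (t ^ n * v * (t ^ n)⁻¹) *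
      (t ^ m * u⁻¹ * (t ^ m)⁻¹) * v⁻¹ := by
    have hcomm : t ^ n * t ^ m = t ^ m * t ^ n := by rw [← zpow_add, ← zpow_add, add_comm]
    have hcomm' : (t ^ n)⁻¹ * t ^ m = t ^ m * (t ^ n)⁻¹ := by
      rw [← zpow_neg, ← zpow_add, ← zpow_add, add_comm]
    unfold com
    have e1 : u * t ^ n * (v * t ^ m) * (u * t ^ n)⁻¹ * (v * t ^ m)⁻¹ =
      u * t ^ n * v * (t ^ m * (t ^ n)⁻¹) * u⁻¹ * (t ^ m)⁻¹ * v⁻¹ := by
      simp only [mul_assoc, mul_inv_rev]
    rw [e1, ← hcomm']
    simp only [mul_assoc]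
  rw [h]
  exact mul_mem (mul_mem (mul_mem hu (Ac_conj x t n v hv)) (Ac_conj x t m _ (inv_mem hu)))
    (inv_mem hv)

include hc in
theorem metab_closure (a b c d : G) (ha : a ∈ Subgroup.closure {x, t})
    (hb : b ∈ Subgroup.closure {x, t}) (hc' : c ∈ Subgroup.closure {x, t})
    (hd : d ∈ Subgroup.closure {x, t}) : com a b * com c d = com c d * com a b :=
  Ac_comm x t hc _ (com_mem x t a b ha hb) _ (com_mem x t c d hc' hd)

end metab

/-- the finitary elements of the base group -/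
def Nf (X H : Type) [Group H] : Subgroup (Wr X H) where
  carrier := {w | w.p = 1 ∧ {x | w.s x ≠ 1}.Finite}
  one_mem' := ⟨rfl, by simp⟩
  mul_mem' := by
    rintro a b ⟨ha, ha'⟩ ⟨hb, hb'⟩
    refine ⟨by rw [Wr.mul_p, ha, hb, one_mul], (ha'.union hb').subset ?_⟩
    intro x hx
    by_contra hc
    simp only [Set.mem_union, Set.mem_ofPred_eq, not_or, not_not] at hc
    refine hx ?_
    rw [Wr.mul_s, hb]
    change a.s x * b.s x = 1
    rw [hc.1, hc.2, one_mul]
  inv_mem' := by
    rintro a ⟨ha, ha'⟩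
    refine ⟨by rw [Wr.inv_p, ha, inv_one], ha'.subset ?_⟩
    intro x hx
    by_contra hc
    simp only [Set.mem_ofPred_eq, not_not] at hc
    refine hx ?_
    rw [Wr.inv_s, ha, inv_one]
    change (a.s x)⁻¹ = 1
    rw [hc, inv_one]

instance (X H : Type) [Group H] : (Nf X H).Normal := by
  refine ⟨?_⟩
  rintro b ⟨hb, hb'⟩ w
  refine ⟨conj_p w b hb, (hb'.image w.p).subset ?_⟩
  intro x hx
  obtain ⟨y, rfl⟩ := w.p.surjective x
  refine ⟨y, ?_, rfl⟩
  intro h
  refine hx ?_
  rw [conj_s w b hb, h, mul_one, mul_inv_cancel]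

section two

variable {H : Type} [Group H] (h : ℕ → H)

open scoped Classical in
/-- the function with the values `h i` at the powers `2 ^ i` -/
noncomputable def ff : ℤ → H := fun x => if hx : ∃ i : ℕ, x = 2 ^ i then h hx.choose else 1

theorem ff_pow (i : ℕ) : ff h (2 ^ i) = h i := by
  unfold ff
  have hx : ∃ k : ℕ, (2 : ℤ) ^ i = 2 ^ k := ⟨i, rfl⟩
  rw [dif_pos hx]
  have h1 := hx.choose_spec
  have h2 : i = hx.choose := Int.pow_right_injective (by norm_num) h1
  rw [← h2]

theorem ff_ne (x : ℤ) (hx : ff h x ≠ 1) : ∃ i : ℕ, x = 2 ^ i := by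
  by_contra hc
  refine hx ?_
  unfold ff
  rw [dif_neg hc]

/-- The group generated by the function and the translation. -/
noncomputable def W : Subgroup (Wr ℤ H) :=
  Subgroup.closure {fn (ff h), tr H (Multiplicative.ofAdd 1)}

theorem tr_mem (n : ℤ) : tr H (Multiplicative.ofAdd n) ∈ W h := by
  have h1 : tr H (Multiplicative.ofAdd n) = tr H (Multiplicative.ofAdd 1) ^ n := by
    rw [← map_zpow, ← ofAdd_zsmul, smul_eq_mul, mul_one]
  have h2 : tr H (Multiplicative.ofAdd 1) ∈ W h := Subgroup.subset_closure (Or.inr rfl)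
  rw [h1]
  exact zpow_mem h2 n

theorem shift_mem (n : ℤ) : fn (fun x => ff h (x - n)) ∈ W h := by
  have h1 := conj_tr (Multiplicative.ofAdd n) (ff h)
  have h2 : (fn (fun x => ff h (x - n)) : Wr ℤ H) = tr H (Multiplicative.ofAdd n) * fn (ff h) *
    (tr H (Multiplicative.ofAdd n))⁻¹ := h1.symm
  rw [h2]
  exact mul_mem (mul_mem (tr_mem h n) (Subgroup.subset_closure (Or.inl rfl)))
    (inv_mem (tr_mem h n))

theorem com_fn (s s' : ℤ → H) : com (fn s) (fn s') = fn (fun x => com (s x) (s' x)) := by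
  have h1 : com (fn s) (fn s') = fnh ℤ H (com s s') := (com_map (fnh ℤ H) s s').symm
  rw [h1]
  rfl

theorem com_one_left {G : Type} [Group G] (a : G) : com 1 a = 1 := by simp [com]

theorem com_one_right {G : Type} [Group G] (a : G) : com a 1 = 1 := by simp [com]

/-- arithmetic of the powers of two -/
theorem pow_lemma {k j l i : ℕ} (hij : i ≠ j) (hk : (2 : ℤ) ^ k + 2 ^ j = 2 ^ l + 2 ^ i) :
    k = i := by
  have hk' : 2 ^ k + 2 ^ j = 2 ^ l + 2 ^ i := by exact_mod_cast hk
  clear hk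
  have key : ∀ a b c d : ℕ, a < c → b < d → 2 ^ c + 2 ^ b = 2 ^ d + 2 ^ a → b ≤ a := by
    intro a b c d hac hbd heq
    by_contra hlt
    rw [not_le] at hlt
    have h1 : 2 ^ (a + 1) ∣ 2 ^ c := pow_dvd_pow 2 hac
    have h2 : 2 ^ (a + 1) ∣ 2 ^ b := pow_dvd_pow 2 hlt
    have h3 : 2 ^ (a + 1) ∣ 2 ^ d := pow_dvd_pow 2 (by omega)
    have h4 : 2 ^ (a + 1) ∣ 2 ^ a := (Nat.dvd_add_right h3).1 (heq ▸ dvd_add h1 h2)
    have h5 := Nat.le_of_dvd (by positivity) h4
    rw [pow_succ] at h5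
    have : 0 < 2 ^ a := by positivity
    omega
  rcases Nat.lt_trichotomy k i with h1 | h1 | h1
  · exfalso
    have h2 : 2 ^ k < 2 ^ i := Nat.pow_lt_pow_right (by norm_num) h1
    have h3 : 2 ^ l < 2 ^ j := by omega
    have h4 : l < j := (Nat.pow_lt_pow_iff_right (by norm_num)).1 h3
    have h5 := key k l i j h1 h4 (by omega)
    have h6 := key l k j i h4 h1 (by omega)
    have h7 : k = l := by omega
    subst h7
    have h8 : 2 ^ j = 2 ^ i := by omega
    exact hij (Nat.pow_right_injective (le_refl 2) h8).symm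
  · exact h1
  · exfalso
    have h2 : 2 ^ i < 2 ^ k := Nat.pow_lt_pow_right (by norm_num) h1
    have h3 : 2 ^ j < 2 ^ l := by omega
    have h4 : j < l := (Nat.pow_lt_pow_iff_right (by norm_num)).1 h3
    have h5 := key i j k l h1 h4 (by omega)
    have h6 := key j i l k h4 h1 (by omega)
    exact hij (by omega)

/-- the commutators of the entries at one point -/
theorem pt_mem {i j : ℕ} (hij : i ≠ j) : pt (0 : ℤ) (com (h i) (h j)) ∈ W h := by
  classical
  have h1 := shift_mem h (-2 ^ i)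
  have h2 := shift_mem h (-2 ^ j)
  have h3 : com (fn (fun x => ff h (x - (-2 ^ i)))) (fn (fun x => ff h (x - (-2 ^ j)))) ∈ W h :=
    mul_mem (mul_mem (mul_mem h1 h2) (inv_mem h1)) (inv_mem h2)
  rw [com_fn] at h3
  have h4 : (fn (fun x => com (ff h (x - (-2 ^ i))) (ff h (x - (-2 ^ j)))) : Wr ℤ H) =
      pt (0 : ℤ) (com (h i) (h j)) := by
    refine Wr.ext ?_ rfl
    funext x
    change com (ff h (x - (-2 ^ i))) (ff h (x - (-2 ^ j))) =
      @ite _ (x = 0) (Classical.propDecidable _) (com (h i) (h j)) 1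
    by_cases hx : x = 0
    · subst hx
      rw [if_pos rfl, zero_sub, neg_neg, ff_pow, zero_sub, neg_neg, ff_pow]
    · rw [if_neg hx]
      by_contra hne
      have h5 : ff h (x - (-2 ^ i)) ≠ 1 := by
        intro h6
        rw [h6, com_one_left] at hne
        exact hne rfl
      have h6 : ff h (x - (-2 ^ j)) ≠ 1 := by
        intro h6
        rw [h6, com_one_right] at hne
        exact hne rfl
      obtain ⟨k, hk⟩ := ff_ne h _ h5
      obtain ⟨l, hl⟩ := ff_ne h _ h6
      have h7 : (2 : ℤ) ^ k + 2 ^ j = 2 ^ l + 2 ^ i := by linarith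
      have h8 := pow_lemma hij h7
      subst h8
      exact hx (by linarith)
  rw [← h4]
  exact h3

theorem pow_diff {i j : ℕ} {d : ℤ} (hd : d ≠ 0) (hij : (2 : ℤ) ^ i - 2 ^ j = d) :
    i ≤ d.natAbs := by
  rcases Nat.lt_trichotomy i j with h1 | h1 | h1
  · have h2 : (2 : ℤ) ^ i ≤ 2 ^ (j - 1) := pow_le_pow_right₀ (by norm_num) (by omega)
    have h3 : (2 : ℤ) ^ j = 2 * 2 ^ (j - 1) := by
      rw [← pow_succ']
      congr 1
      omega
    have h4 : i < 2 ^ i := Nat.lt_two_pow_self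
    have h5 : (i : ℤ) < 2 ^ i := by exact_mod_cast h4
    omega
  · subst h1
    rw [sub_self] at hij
    exact absurd hij.symm hd
  · have h2 : (2 : ℤ) ^ j ≤ 2 ^ (i - 1) := pow_le_pow_right₀ (by norm_num) (by omega)
    have h3 : (2 : ℤ) ^ i = 2 * 2 ^ (i - 1) := by
      rw [← pow_succ']
      congr 1
      omega
    have h4 : i - 1 < 2 ^ (i - 1) := Nat.lt_two_pow_self
    have h5 : ((i - 1 : ℕ) : ℤ) < 2 ^ (i - 1) := by exact_mod_cast h4
    omega

/-- the conjugates of the function commute modulo the finitary elements -/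
theorem com_shift (a b : ℤ) : com (fn (fun x => ff h (x - a))) (fn (fun x => ff h (x - b))) ∈
    Nf ℤ H := by
  rw [com_fn]
  refine ⟨rfl, ?_⟩
  by_cases hab : a = b
  · subst hab
    have : {x | (fn (fun x => com (ff h (x - a)) (ff h (x - a))) : Wr ℤ H).s x ≠ 1} = ∅ := by
      ext x
      simp only [Set.mem_ofPred_eq, Set.mem_empty_iff_false, iff_false, not_not]
      change com (ff h (x - a)) (ff h (x - a)) = 1
      unfold com
      rw [mul_inv_cancel_right, mul_inv_cancel]
    rw [this]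
    exact Set.finite_empty
  · refine ((Finset.range ((b - a).natAbs + 1)).finite_toSet.image
      (fun i : ℕ => a + (2 : ℤ) ^ i)).subset ?_
    intro x hx
    have hx' : com (ff h (x - a)) (ff h (x - b)) ≠ 1 := hx
    have h5 : ff h (x - a) ≠ 1 := by
      intro h6
      rw [h6, com_one_left] at hx'
      exact hx' rfl
    have h6 : ff h (x - b) ≠ 1 := by
      intro h6
      rw [h6, com_one_right] at hx'
      exact hx' rfl
    obtain ⟨k, hk⟩ := ff_ne h _ h5
    obtain ⟨l, hl⟩ := ff_ne h _ h6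
    refine ⟨k, ?_, by linarith⟩
    have h7 : (2 : ℤ) ^ k - 2 ^ l = b - a := by linarith
    have h8 := pow_diff (sub_ne_zero.2 (Ne.symm hab)) h7
    rw [Finset.mem_coe, Finset.mem_range]
    omega

/-- **The group generated by the function and the translation is in the class.** -/
theorem W_mem (hC : Closed C) (hE : ExtClosed C) (hM : ∀ (G : Type) [Group G], Metab G → C G)
    (hH : C H) : C (W h) := by
  let π : Wr ℤ H →* Wr ℤ H ⧸ Nf ℤ H := QuotientGroup.mk' (Nf ℤ H)
  let f : W h →* Wr ℤ H ⧸ Nf ℤ H := π.comp (W h).subtype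
  have h1 : ∀ w : W h, f.rangeRestrict w = 1 → (w : Wr ℤ H) ∈ Nf ℤ H := by
    intro w hw
    have h2 : f w = 1 := congrArg Subtype.val hw
    exact (QuotientGroup.eq_one_iff (w : Wr ℤ H)).1 h2
  refine unr (W h).subtype f.rangeRestrict (fun w hw => h1 w hw) hC hE hH
    (W h).subtype_injective f.rangeRestrict_surjective (hM _ ?_)
  have h3 : ∀ q : f.range, (q : Wr ℤ H ⧸ Nf ℤ H) ∈ Subgroup.closure
      {π (fn (ff h)), π (tr H (Multiplicative.ofAdd 1))} := by
    rintro ⟨_, ⟨w, rfl⟩⟩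
    have h4 : π w ∈ (W h).map π := ⟨w, w.2, rfl⟩
    unfold W at h4
    rw [MonoidHom.map_closure, Set.image_pair] at h4
    exact h4
  have h5 : ∀ a : ℤ, π (tr H (Multiplicative.ofAdd 1)) ^ a * π (fn (ff h)) *
      (π (tr H (Multiplicative.ofAdd 1)) ^ a)⁻¹ = π (fn (fun x => ff h (x - a))) := by
    intro a
    have h6 : tr H (Multiplicative.ofAdd 1) ^ a = tr H (Multiplicative.ofAdd a) := by
      rw [← map_zpow, ← ofAdd_zsmul, smul_eq_mul, mul_one]
    rw [← map_zpow, ← map_mul, ← map_inv, ← map_mul, h6, conj_tr]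
    rfl
  intro a b c d
  apply Subtype.ext
  have h7 := metab_closure (π (fn (ff h))) (π (tr H (Multiplicative.ofAdd 1))) (fun a b => by
    rw [h5, h5]
    have h8 : π (com (fn (fun x => ff h (x - a))) (fn (fun x => ff h (x - b)))) = 1 :=
      (QuotientGroup.eq_one_iff _).2 (com_shift h a b)
    rw [com_map] at h8
    unfold com at h8
    rw [mul_inv_eq_one, mul_inv_eq_iff_eq_mul] at h8
    exact h8) a.1 b.1 c.1 d.1 (h3 a) (h3 b) (h3 c) (h3 d)
  exact h7

/-- the permutation parts are translations -/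
theorem W_tr (w : Wr ℤ H) (hw : w ∈ W h) : ∃ n : ℤ, ∀ x, w.p x = x + n := by
  induction hw using Subgroup.closure_induction with
  | mem y hy =>
    rcases hy with rfl | hy
    · exact ⟨0, fun x => (add_zero x).symm⟩
    · rw [Set.mem_singleton_iff] at hy
      subst hy
      exact ⟨1, fun x => rfl⟩
  | one => exact ⟨0, fun x => (add_zero x).symm⟩
  | mul a b _ _ ha hb =>
    obtain ⟨n, hn⟩ := ha
    obtain ⟨m, hm⟩ := hb
    refine ⟨m + n, fun x => ?_⟩
    change a.p (b.p x) = _
    rw [hm, hn]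
    ring
  | inv a _ ha =>
    obtain ⟨n, hn⟩ := ha
    refine ⟨-n, fun x => ?_⟩
    change a.p.symm x = _
    rw [Equiv.symm_apply_eq, hn]
    ring

/-- elements of finite order -/
theorem wr_torsionFree (hH : ∀ u : H, IsOfFinOrder u → u = 1) (w : Wr ℤ H)
    (hw : ∃ n : ℤ, ∀ x, w.p x = x + n) (hf : IsOfFinOrder w) : w = 1 := by
  obtain ⟨n, hn⟩ := hw
  rw [isOfFinOrder_iff_pow_eq_one] at hf
  obtain ⟨k, hk, hk'⟩ := hf
  have h1 : ∀ m : ℕ, ∀ x, (w ^ m).p x = x + m * n := by
    intro m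
    induction m with
    | zero =>
      intro x
      rw [pow_zero]
      change x = _
      simp
    | succ m ih =>
      intro x
      rw [pow_succ, Wr.mul_p, Equiv.Perm.mul_apply, hn, ih]
      push_cast
      ring
  have h2 : n = 0 := by
    have h3 := h1 k 0
    rw [hk'] at h3
    have h4 : (0 : ℤ) = 0 + k * n := h3
    rw [zero_add] at h4
    rcases mul_eq_zero.1 h4.symm with h5 | h5
    · exact absurd h5 (by positivity)
    · exact h5
  subst h2
  have hp : w.p = 1 := by
    ext x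
    rw [hn, add_zero]
    rfl
  have h5 : ∀ (m : ℕ) (x : ℤ), (w ^ m).s x = w.s x ^ m := by
    intro m x
    induction m with
    | zero =>
      rw [pow_zero, pow_zero]
      rfl
    | succ m ih =>
      rw [pow_succ, Wr.mul_s, hp, pow_succ]
      change (w ^ m).s x * w.s x = _
      rw [ih]
  refine Wr.ext ?_ hp
  funext x
  refine hH _ ?_
  rw [isOfFinOrder_iff_pow_eq_one]
  refine ⟨k, hk, ?_⟩
  rw [← h5, hk']
  rfl

end two

/-- the group of step functions is torsion-free -/
theorem Ev.torsionFree {G : Type} [Group G] (hG : ∀ u : G, IsOfFinOrder u → u = 1) (w : Ev G)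
    (hf : IsOfFinOrder w) : w = 1 := by
  apply Ev.j_injective
  rw [map_one]
  exact wr_torsionFree hG _ ⟨_, w.2.1⟩ ((Ev.j G).isOfFinOrder hf)

/-- The entries. -/
noncomputable def ent {G : Type} [Group G] (g : ℕ → G) : ℕ → Ev G
  | 0 => Ev.t G (Multiplicative.ofAdd 1)
  | i + 1 => Ev.step (g i)

/-- the embedding in the unrestricted wreath product -/
noncomputable def em (G : Type) [Group G] : G →* Wr ℤ (Ev G) := (pt (0 : ℤ)).comp (Ev.emb G)

theorem em_injective (G : Type) [Group G] : Function.Injective (em G) :=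
  (pt_injective (0 : ℤ)).comp (Ev.emb_injective G)

theorem em_mem {G : Type} [Group G] (g : ℕ → G) (i : ℕ) : em G (g i) ∈ W (ent g) := by
  have h1 := pt_mem (ent g) (i := i + 1) (j := 0) (by omega)
  exact h1

theorem closure_gen {G : Type} [Group G] (a b : G) :
    Subgroup.closure {(⟨a, Subgroup.subset_closure (Or.inl rfl)⟩ :
      Subgroup.closure ({a, b} : Set G)), ⟨b, Subgroup.subset_closure (Or.inr rfl)⟩} = ⊤ := by
  have h2 := Subgroup.closure_closure_coe_preimage (k := ({a, b} : Set G))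
  rw [eq_top_iff, ← h2]
  refine Subgroup.closure_mono ?_
  rintro ⟨y, hy⟩ hy'
  rcases hy' with h3 | h3
  · exact Or.inl (Subtype.ext h3)
  · exact Or.inr (Subtype.ext h3)

/-- **Embedding theorem.**  The subgroup generated by a sequence of elements of a group of the class
embeds in a group of the class with two generators. -/
theorem embed (hC : Closed C) (hE : ExtClosed C) (hM : ∀ (G : Type) [Group G], Metab G → C G)
    {G : Type} [Group G] (hG : C G) (g : ℕ → G) :
    ∃ (W : Type) (_ : Group W) (a b : W) (k : Subgroup.closure (Set.range g) →* W),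
      C W ∧ Subgroup.closure {a, b} = ⊤ ∧ Function.Injective k ∧
      ((∀ u : G, IsOfFinOrder u → u = 1) → ∀ u : W, IsOfFinOrder u → u = 1) := by
  have h1 : Subgroup.closure (Set.range g) ≤ (W (ent g)).comap (em G) := by
    refine (Subgroup.closure_le _).2 ?_
    rintro _ ⟨i, rfl⟩
    exact em_mem g i
  refine ⟨W (ent g), inferInstance, ⟨_, Subgroup.subset_closure (Or.inl rfl)⟩,
    ⟨_, Subgroup.subset_closure (Or.inr rfl)⟩,
    ((em G).comp (Subgroup.subtype _)).codRestrict (W (ent g)) (fun y => h1 y.2),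
    W_mem (ent g) hC hE hM (Ev.mem hC hE hG), ?_, ?_, ?_⟩
  · exact closure_gen (fn (ff (ent g))) (tr (Ev G) (Multiplicative.ofAdd 1))
  · intro y y' hy
    apply Subtype.ext
    exact em_injective G (congrArg Subtype.val hy)
  · intro hG' u hu
    apply Subtype.ext
    refine wr_torsionFree (fun v hv => Ev.torsionFree hG' v hv) _ (W_tr (ent g) u.1 u.2) ?_
    exact (W (ent g)).subtype.isOfFinOrder hu

end Pool.Agent.Q152.EM
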