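import Pool.Agent.Q152.FI.Basic

/-!
# Subgroups of unrestricted wreath products
-/

set_option autoImplicit false
set_option linter.unusedSectionVars false
set_option linter.style.haveILetI false

namespace Pool.Agent.Q152.EM

open Pool.Agent.Y462.SS Pool.Agent.Q152.WP Pool.Agent.Q105.FJ Pool.Agent.Q152.FI

variable {C : ∀ (G : Type) [Group G], Prop}

variable {X H : Type} [Group H]

/-- a partial injection of a finite set extends to a permutation -/
theorem exists_perm' (ρ : Equiv.Perm X) (S : Finset X) :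
    ∃ π : Equiv.Perm (S : Set X), ∀ v : (S : Set X), v.1 ∈ FIGroup.cap ρ S →
      (π v).1 = ρ v.1 := by
  classical
  haveI : Fintype ((S : Set X) : Type) := Fintype.ofFinite _
  let e : {x : (S : Set X) // ρ x.1 ∈ S} ≃ {x : (S : Set X) // ρ.symm x.1 ∈ S} :=
    { toFun := fun x => ⟨⟨ρ x.1.1, x.2⟩, by
        change ρ.symm (ρ x.1.1) ∈ S
        rw [Equiv.symm_apply_apply]
        exact x.1.2⟩
      invFun := fun x => ⟨⟨ρ.symm x.1.1, x.2⟩, by
        change ρ (ρ.symm x.1.1) ∈ S
        rw [Equiv.apply_symm_apply]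
        exact x.1.2⟩
      left_inv := fun x => by
        apply Subtype.ext
        apply Subtype.ext
        exact Equiv.symm_apply_apply _ _
      right_inv := fun x => by
        apply Subtype.ext
        apply Subtype.ext
        exact Equiv.apply_symm_apply _ _ }
  refine ⟨e.extendSubtype, ?_⟩
  intro v hv
  rw [FIGroup.mem_cap] at hv
  have := e.extendSubtype_apply_of_mem v hv.2
  exact congrArg Subtype.val this

/-- the conjugate of an element of the base group -/
theorem conj_s (w b : Wr X H) (hb : b.p = 1) (x : X) :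
    (w * b * w⁻¹).s (w.p x) = w.s x * b.s x * (w.s x)⁻¹ := by
  have h1 : (w * b * w⁻¹).s (w.p x) = (w.s (b.p (w⁻¹.p (w.p x))) * b.s (w⁻¹.p (w.p x))) *
    w⁻¹.s (w.p x) := rfl
  have h2 : w⁻¹.p (w.p x) = x := w.p.symm_apply_apply x
  have h3 : w⁻¹.s (w.p x) = (w.s (w.p.symm (w.p x)))⁻¹ := rfl
  rw [h1, h2, h3, hb, Equiv.symm_apply_apply]
  rfl

theorem conj_p (w b : Wr X H) (hb : b.p = 1) : (w * b * w⁻¹).p = 1 := by
  have h1 : (w * b * w⁻¹).p = w.p * b.p * w.p⁻¹ := rfl
  rw [h1, hb, mul_one, mul_inv_cancel]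

variable {W Q : Type} [Group W] [Group Q] (j : W →* Wr X H) (f : W →* Q)
  (hker : ∀ w, f w = 1 → (j w).p = 1 ∧ {x | (j w).s x ≠ 1}.Finite)

/-- the elements of the kernel with support in a set -/
def sup (S : Set X) (hker : ∀ w, f w = 1 → (j w).p = 1 ∧ {x | (j w).s x ≠ 1}.Finite) :
    Subgroup W where
  carrier := {w | f w = 1 ∧ ∀ x, x ∉ S → (j w).s x = 1}
  one_mem' := ⟨map_one f, fun x _ => by rw [map_one]; rfl⟩
  mul_mem' := by
    rintro a b ⟨ha, ha'⟩ ⟨hb, hb'⟩
    refine ⟨by rw [map_mul, ha, hb, one_mul], fun x hx => ?_⟩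
    rw [map_mul]
    change (j a).s ((j b).p x) * (j b).s x = 1
    rw [(hker b hb).1, hb' x hx, mul_one]
    exact ha' x hx
  inv_mem' := by
    rintro a ⟨ha, ha'⟩
    refine ⟨by rw [map_inv, ha, inv_one], fun x hx => ?_⟩
    rw [map_inv]
    change ((j a).s ((j a).p.symm x))⁻¹ = 1
    rw [(hker a ha).1]
    change ((j a).s x)⁻¹ = 1
    rw [ha' x hx, inv_one]

/-- the restriction to a set, on elements of the kernel -/
def resS (S : Set X) (hker : ∀ w, f w = 1 → (j w).p = 1 ∧ {x | (j w).s x ≠ 1}.Finite) :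
    sup j f S hker →* Wr S H where
  toFun w := ⟨fun x => (j w.1).s x.1, 1⟩
  map_one' := by
    refine Wr.ext ?_ rfl
    funext x
    change (j 1).s x.1 = 1
    rw [map_one]
    rfl
  map_mul' a b := by
    refine Wr.ext ?_ rfl
    funext x
    change (j (a.1 * b.1)).s x.1 = (j a.1).s x.1 * (j b.1).s x.1
    rw [map_mul]
    change (j a.1).s ((j b.1).p x.1) * (j b.1).s x.1 = _
    rw [(hker b.1 b.2.1).1]
    rfl

theorem resS_injective (hj : Function.Injective j) (S : Set X) :
    Function.Injective (resS j f S hker) := by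
  intro a b hab
  apply Subtype.ext
  apply hj
  refine Wr.ext ?_ ?_
  · funext x
    by_cases hx : x ∈ S
    · exact congrFun (congrArg Wr.s hab) ⟨x, hx⟩
    · rw [a.2.2 x hx, b.2.2 x hx]
  · rw [(hker a.1 a.2.1).1, (hker b.1 b.2.1).1]

include hker in
theorem ker_mem (hC : Closed C) (hH : C H) (hj : Function.Injective j) : C f.ker := by
  classical
  refine Pool.Agent.Y430.SS.of_directed hC _ (Finset X)
    (fun a b => ⟨a ∪ b, Finset.subset_union_left, Finset.subset_union_right⟩)
    (fun S => (sup j f (S : Set X) hker).comap f.ker.subtype) ?_ ?_ ?_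
  · intro S T hST g hg
    exact ⟨hg.1, fun x hx => hg.2 x (fun h => hx (hST h))⟩
  · intro g
    refine ⟨(hker g.1 g.2).2.toFinset, g.2, fun x hx => ?_⟩
    by_contra h
    exact hx ((hker g.1 g.2).2.mem_toFinset.2 h)
  · intro S
    have hfin : Finite ((S : Set X) : Type) := by infer_instance
    refine hC.of_injective _ (Wr (S : Set X) H)
      ((resS j f (S : Set X) hker).comp
        { toFun := fun y => ⟨y.1.1, y.2⟩
          map_one' := rfl
          map_mul' := fun a b => rfl }) ?_
      (Pool.Agent.Y812.SS.t_wr C hC _ H hfin hH)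
    refine (resS_injective j f hker hj _).comp ?_
    intro a b hab
    apply Subtype.ext
    apply Subtype.ext
    exact congrArg (fun y : sup j f (S : Set X) hker => (y : W)) hab

/-- the pairs of subgroups -/
noncomputable def pr (g : W) (S : Finset X) : Pair g where
  A := sup j f (FIGroup.cap (j g).p S : Set X) hker
  F := sup j f (S : Set X) hker
  hA := by
    rintro w ⟨h1, h2⟩
    refine ⟨h1, fun x hx => h2 x (fun h => hx ?_)⟩
    exact ((FIGroup.mem_cap (j g).p S x).1 h).1
  hB := by
    rintro w ⟨h1, h2⟩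
    refine ⟨by rw [map_mul, map_mul, h1, mul_one, map_inv, mul_inv_cancel], fun x hx => ?_⟩
    obtain ⟨y, rfl⟩ := (j g).p.surjective x
    rw [map_mul, map_mul, map_inv, conj_s _ _ (hker w h1).1]
    have : y ∉ (FIGroup.cap (j g).p S : Set X) := fun h =>
      hx ((FIGroup.mem_cap (j g).p S y).1 h).2
    rw [h2 y this, mul_one, mul_inv_cancel]

theorem pr_dir (g : W) : Dir f.ker (Set.range (pr j f hker g)) := by
  classical
  have hmono : ∀ {S T : Finset X}, S ⊆ T → pr j f hker g S ≤ pr j f hker g T := by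
    intro S T h
    refine ⟨?_, ?_⟩
    · rintro w ⟨h1, h2⟩
      refine ⟨h1, fun x hx => h2 x (fun h' => hx ?_)⟩
      have := (FIGroup.mem_cap (j g).p S x).1 h'
      exact (FIGroup.mem_cap (j g).p T x).2 ⟨h this.1, h this.2⟩
    · rintro w ⟨h1, h2⟩
      exact ⟨h1, fun x hx => h2 x (fun h' => hx (h h'))⟩
  refine ⟨⟨_, ⟨∅, rfl⟩⟩, ?_, ?_, ?_⟩
  · rintro _ ⟨S, rfl⟩ w ⟨h1, _⟩
    exact h1
  · rintro _ ⟨S, rfl⟩ _ ⟨T, rfl⟩
    exact ⟨_, ⟨S ∪ T, rfl⟩, hmono Finset.subset_union_left, hmono Finset.subset_union_right⟩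
  · intro w hw
    let S : Finset X := (hker w hw).2.toFinset
    let T : Finset X := S ∪ S.image (j g).p
    refine ⟨_, ⟨T, rfl⟩, hw, fun x hx => ?_⟩
    by_contra h
    have hxS : x ∈ S := (hker w hw).2.mem_toFinset.2 h
    refine hx ((FIGroup.mem_cap (j g).p T x).2 ⟨Finset.mem_union_left _ hxS, ?_⟩)
    exact Finset.mem_union_right _ (Finset.mem_image_of_mem _ hxS)

theorem pr_ext (hC : Closed C) (hH : C H) (hj : Function.Injective j) (g : W) (S : Finset X) :
    Ext C (pr j f hker g S) := by
  obtain ⟨π, hπρ⟩ := exists_perm' (j g).p S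
  have hfin : Finite ((S : Set X) : Type) := by infer_instance
  refine ⟨Wr (S : Set X) H, inferInstance, resS j f (S : Set X) hker,
    ⟨fun x => (j g).s x.1, π⟩, Pool.Agent.Y812.SS.t_wr C hC _ H hfin hH,
    resS_injective j f hker hj _, ?_⟩
  intro a ha
  refine Wr.ext ?_ ?_
  · funext x
    change (j g).s ((1 : Equiv.Perm (S : Set X)) x).1 * (j a).s x.1 =
      (j (g * a * g⁻¹)).s (π x).1 * (j g).s x.1
    by_cases hx : x.1 ∈ FIGroup.cap (j g).p S
    · rw [hπρ x hx, map_mul, map_mul, map_inv, conj_s _ _ (hker a ha.1).1, inv_mul_cancel_right]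
      rfl
    · rw [ha.2 x.1 hx, mul_one]
      have h1 : (j (g * a * g⁻¹)).s (π x).1 = 1 := by
        obtain ⟨y, hy⟩ := (j g).p.surjective (π x).1
        have h2 : y ∉ FIGroup.cap (j g).p S := by
          intro h
          have h3 : π ⟨y, ((FIGroup.mem_cap (j g).p S y).1 h).1⟩ = π x := by
            apply Subtype.ext
            rw [hπρ _ h, hy]
          have h4 := π.injective h3
          rw [← h4] at hx
          exact hx h
        rw [← hy, map_mul, map_mul, map_inv, conj_s _ _ (hker a ha.1).1, ha.2 y h2, mul_one,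
          mul_inv_cancel]
      rw [h1, one_mul]
      rfl
  · change π * 1 = 1 * π
    rw [mul_one, one_mul]

include hker in
/-- **Subgroups of unrestricted wreath products.**  Let `W` be a subgroup of the unrestricted wreath
product of `H` and the symmetric group of `X`, and let `f` be a homomorphism of `W` onto a group of the
class whose kernel consists of elements of finite support of the base group. -/
theorem unr (hC : Closed C) (hE : ExtClosed C) (hH : C H) (hj : Function.Injective j)
    (hf : Function.Surjective f) (hQ : C Q) : C W := by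
  refine dir_kernel hC hE f hf hQ (ker_mem j f hker hC hH hj) ?_
  intro q _
  obtain ⟨g, hg⟩ := hf q
  refine ⟨g, hg, Set.range (pr j f hker g), pr_dir j f hker g, ?_⟩
  rintro _ ⟨S, rfl⟩
  exact pr_ext j f hker hC hH hj g S

end Pool.Agent.Q152.EM
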