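import Pool.Agent.Q152.EM.Per

/-!
# Bi-infinite walks which are periodic near the ends
-/

set_option autoImplicit false
set_option linter.unusedSectionVars false
set_option linter.style.haveILetI false

namespace Pool.Agent.Q152.EM

open Pool.Agent.Y462.SS Pool.Agent.Q152.WP

/-- eventually periodic iterates -/
theorem iter_per {k : Type} (f : k → k) {a d : ℕ} (h : f^[a] = f^[a + d]) (n q : ℕ) (hn : a ≤ n) :
    f^[n + d * q] = f^[n] := by
  have h1 : ∀ n, a ≤ n → f^[n + d] = f^[n] := by
    intro n hn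
    have e1 : n + d = (n - a) + (a + d) := by omega
    have e2 : n = (n - a) + a := by omega
    rw [e1, Function.iterate_add, ← h, ← Function.iterate_add, ← e2]
  induction q with
  | zero => rw [mul_zero, add_zero]
  | succ q ih =>
    rw [mul_add, mul_one, ← add_assoc, h1 _ (by omega), ih]

theorem exists_per {k : Type} [Finite k] (f : k → k) : ∃ a d : ℕ, 0 < d ∧ f^[a] = f^[a + d] := by
  obtain ⟨a, b, hab, h⟩ := Finite.exists_ne_map_eq_of_infinite (fun n : ℕ => f^[n])
  rcases Nat.lt_or_gt_of_ne hab with h1 | h1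
  · exact ⟨a, b - a, by omega, by
      have : a + (b - a) = b := by omega
      rw [this]
      exact h⟩
  · exact ⟨b, a - b, by omega, by
      have : b + (a - b) = a := by omega
      rw [this]
      exact h.symm⟩

/-- A bi-infinite walk which is periodic near the ends. -/
structure Walk {k : Type} (R : k → k → Prop) (p : ℕ) where
  w : ℤ → k
  r : ZMod p × Bool → k
  hw : ∀ x, R (w x) (w (x + 1))
  neg : ∃ N, ∀ x ≤ N, w x = r ((x : ZMod p), false)
  pos : ∃ N, ∀ x ≥ N, w x = r ((x : ZMod p), true)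

theorem exists_walk {k : Type} [Finite k] (R : k → k → Prop) (hs : ∀ i, ∃ i', R i i')
    (hp : ∀ i, ∃ i', R i' i) : ∃ p : ℕ, 0 < p ∧ ∀ i, ∃ W : Walk R p, W.w 0 = i := by
  choose su hsu using hs
  choose pr hpr using hp
  obtain ⟨a, d, hd, had⟩ := exists_per su
  obtain ⟨a', d', hd', had'⟩ := exists_per pr
  refine ⟨d * d', Nat.mul_pos hd hd', fun i => ?_⟩
  haveI : NeZero (d * d') := ⟨(Nat.mul_pos hd hd').ne'⟩
  let w : ℤ → k := fun x => if 0 ≤ x then su^[x.toNat] i else pr^[(-x).toNat] i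
  have w1 : ∀ n : ℕ, w n = su^[n] i := by
    intro n
    change (if (0 : ℤ) ≤ n then su^[(n : ℤ).toNat] i else _) = _
    rw [if_pos (by positivity), Int.toNat_natCast]
  have w2 : ∀ n : ℕ, w (-n) = pr^[n] i := by
    intro n
    change (if (0 : ℤ) ≤ -n then su^[(-n : ℤ).toNat] i else pr^[(-(-n : ℤ)).toNat] i) = _
    by_cases hn : n = 0
    · subst hn
      rfl
    · have : ¬ (0 : ℤ) ≤ -n := by omega
      rw [if_neg this, neg_neg, Int.toNat_natCast]
  have key1 : ∀ n : ℕ, d * d' * a ≤ n →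
      su^[n] i = su^[n % (d * d') + d * d' * a] i := by
    intro n hn
    have h1 : n = n % (d * d') + d * d' * (n / (d * d')) := (Nat.mod_add_div _ _).symm
    have h2 : a ≤ n / (d * d') := by
      rw [Nat.le_div_iff_mul_le (Nat.mul_pos hd hd'), mul_comm]
      exact hn
    obtain ⟨q, hq⟩ := Nat.exists_eq_add_of_le h2
    have h3 : n = (n % (d * d') + d * d' * a) + d * (d' * q) := by
      rw [hq] at h1
      calc n = n % (d * d') + d * d' * (a + q) := h1
        _ = _ := by ring
    have h4 : a ≤ n % (d * d') + d * d' * a :=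
      (Nat.le_mul_of_pos_left a (Nat.mul_pos hd hd')).trans (Nat.le_add_left _ _)
    calc su^[n] i = su^[(n % (d * d') + d * d' * a) + d * (d' * q)] i := by rw [← h3]
      _ = _ := by rw [iter_per su had _ _ h4]
  have key2 : ∀ n : ℕ, d * d' * a' ≤ n →
      pr^[n] i = pr^[n % (d * d') + d * d' * a'] i := by
    intro n hn
    have h1 : n = n % (d * d') + d * d' * (n / (d * d')) := (Nat.mod_add_div _ _).symm
    have h2 : a' ≤ n / (d * d') := by
      rw [Nat.le_div_iff_mul_le (Nat.mul_pos hd hd'), mul_comm]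
      exact hn
    obtain ⟨q, hq⟩ := Nat.exists_eq_add_of_le h2
    have h3 : n = (n % (d * d') + d * d' * a') + d' * (d * q) := by
      rw [hq] at h1
      calc n = n % (d * d') + d * d' * (a' + q) := h1
        _ = _ := by ring
    have h4 : a' ≤ n % (d * d') + d * d' * a' :=
      (Nat.le_mul_of_pos_left a' (Nat.mul_pos hd hd')).trans (Nat.le_add_left _ _)
    calc pr^[n] i = pr^[(n % (d * d') + d * d' * a') + d' * (d * q)] i := by rw [← h3]
      _ = _ := by rw [iter_per pr had' _ _ h4]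
  refine ⟨⟨w, fun z => if z.2 then su^[z.1.val + d * d' * a] i else pr^[(-z.1).val + d * d' * a'] i,
    ?_, ?_, ?_⟩, w1 0⟩
  · intro x
    rcases lt_or_ge x 0 with h0 | h0
    · obtain ⟨n, hn⟩ : ∃ n : ℕ, x = -((n + 1 : ℕ) : ℤ) := ⟨(-x - 1).toNat, by
        push_cast
        rw [Int.toNat_of_nonneg (by omega)]
        ring⟩
      have e1 : x + 1 = -(n : ℤ) := by
        rw [hn]
        push_cast
        ring
      rw [e1, w2, hn, w2, Function.iterate_succ_apply']
      exact hpr _
    · obtain ⟨n, rfl⟩ := Int.eq_ofNat_of_zero_le h0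
      have e1 : (n : ℤ) + 1 = ((n + 1 : ℕ) : ℤ) := by push_cast; ring
      rw [e1, w1, w1, Function.iterate_succ_apply']
      exact hsu _
  · refine ⟨-((d * d' * a' : ℕ) : ℤ), fun x hx => ?_⟩
    obtain ⟨n, rfl⟩ : ∃ n : ℕ, x = -(n : ℤ) := ⟨(-x).toNat, by
      have : (0 : ℤ) ≤ ((d * d' * a' : ℕ) : ℤ) := by positivity
      rw [Int.toNat_of_nonneg (by linarith), neg_neg]⟩
    have hn : d * d' * a' ≤ n := by exact_mod_cast (neg_le_neg_iff.1 hx)
    rw [w2, key2 n hn]
    change _ = (if false = true then _ else pr^[(-(((-(n : ℤ)) : ℤ) : ZMod (d * d'))).val +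
      d * d' * a'] i)
    rw [if_neg (by simp), Int.cast_neg, neg_neg, Int.cast_natCast, ZMod.val_natCast]
  · refine ⟨((d * d' * a : ℕ) : ℤ), fun x hx => ?_⟩
    have h0 : 0 ≤ x := le_trans (by positivity) hx
    obtain ⟨n, rfl⟩ := Int.eq_ofNat_of_zero_le h0
    have hn : d * d' * a ≤ n := by exact_mod_cast hx
    rw [w1, key1 n hn]
    change _ = (if true = true then su^[(((n : ℤ) : ZMod (d * d'))).val + d * d' * a] i else _)
    rw [if_pos rfl, Int.cast_natCast, ZMod.val_natCast]

/-- the element of the group given by a function of the walk -/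
def Walk.mk' {k : Type} {R : k → k → Prop} {p : ℕ} (W : Walk R p) {P : Type} [Group P]
    (v : k → P) (n : Multiplicative ℤ) : EP P p :=
  ⟨(⟨v ∘ W.w, Equiv.addRight n.toAdd⟩,
    ⟨v ∘ W.r, (Equiv.addRight (n.toAdd : ZMod p)).prodCongr (Equiv.refl Bool)⟩, n),
    fun _ => rfl, fun _ => rfl, by
      obtain ⟨N, hN⟩ := W.neg
      exact ⟨N, fun x hx => congrArg v (hN x hx)⟩, by
      obtain ⟨N, hN⟩ := W.pos
      exact ⟨N, fun x hx => congrArg v (hN x hx)⟩⟩

end Pool.Agent.Q152.EM
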